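import Pool.Agent.H43.KS.Step
import Pool.Agent.H134.KS.SOFTI
import Pool.Agent.H878.KS.Momt
import Pool.Agent.H878.KS.Barr

/-!
# Continuation criterion: integrable collision frequency

`r`, `Φ` nondecreasing majorants of the mass density and of `f`; if
`∫_0^T r^(1+γ/d) Φ^(-γ/d) dt < ∞`, then all weighted sup norms stay bounded.

One barrier step at the scale `μ(t) = L r(t)^(1/d)` gives `f ≤ K φ(v/μ(t))`; the minimal rate at the
fixed scale `μ(t₁)`, `K μ(t₁)^(d+γ) (T-t₁) ≤ c`, holds at some `t₁` because `r^(1+γ/d)` is integrable.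
-/

set_option autoImplicit false

open MeasureTheory Metric Set Filter Topology
open scoped RealInnerProductSpace ENNReal

namespace Pool.Agent.H43.KS

open Pool.Agent.H821.BZ

variable {d : ℕ}

theorem MOM : S_MOMT := Pool.Agent.H878.KS.MOMT Pool.Agent.H134.KS.SOFTI

/-- moments at the scale `μ` -/
lemma momS_bdd (hd : 2 ≤ d) {γ : ℝ} (hγ : -(d : ℝ) < γ) (hγ0 : γ < 0) {N : ℕ}
    (hN : (d : ℝ) + 6 ≤ 2 * N) : ∃ K1 : ℝ, 0 ≤ K1 ∧ ∀ f : V d → ℝ, Measurable f → ∀ m μ : ℝ,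
      0 ≤ m → 0 < μ → (∀ w, f w ≤ m * φs N μ w) → ∀ v : V d,
      momS γ γ 2 μ f v ≤ ENNReal.ofReal (K1 * m * μ ^ (γ + d)) := by
  obtain ⟨K1, hK1, hb⟩ := momB_all (a := 2) hd hγ0.le (by linarith) (by norm_num) hN
  refine ⟨K1, hK1, fun f hf m μ hm hμ hle v => ?_⟩
  have h1 := hb (fun w => f (μ • w)) m hm (fun w => by
    have := hle (μ • w)
    unfold φs at this
    rwa [inv_smul_smul₀ hμ.ne'] at this) (μ⁻¹ • v)
  rw [momS_eq hμ γ γ 2 hf v, ← ENNReal.ofReal_mul (by positivity)]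
  calc ENNReal.ofReal (μ ^ γ * μ ^ d) * mom γ 2 (fun w => f (μ • w)) (μ⁻¹ • v)
      ≤ ENNReal.ofReal (μ ^ γ * μ ^ d) * ENNReal.ofReal (K1 * m) := mul_le_mul' le_rfl h1
    _ = ENNReal.ofReal (K1 * m * μ ^ (γ + d)) := by
        rw [← ENNReal.ofReal_mul (by positivity), Real.rpow_add hμ, Real.rpow_natCast]
        congr 1; ring

/-- minimal rate of blow-up at the scale `μ` -/
theorem rateS (hd : 2 ≤ d) {γ : ℝ} (hγ : -(d : ℝ) < γ) (hγ0 : γ < 0)
    {T : ℝ} {f : ℝ → V d → V d → ℝ} (h : Kin T f) {N : ℕ} (hN : (d : ℝ) + 6 ≤ 2 * N)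
    {C : ℝ} (hC : 0 ≤ C) (ht : Touch C γ N T f) :
    ∃ c : ℝ, 0 < c ∧ ∀ t₁ ∈ Ico 0 T, ∀ A μ : ℝ, 1 ≤ μ → (∀ x v, f t₁ x v ≤ A * φs N μ v) →
      A * μ ^ (γ + d) * (T - t₁) ≤ c →
      ∃ B : ℝ, 0 ≤ B ∧ ∀ t ∈ Ico t₁ T, ∀ x v, f t x v ≤ B * φs N μ v := by
  obtain ⟨K1, hK1, hmom⟩ := momS_bdd hd hγ hγ0 hN
  set K2 : ℝ := C * K1 + 1 with hK2
  have hK20 : 0 < K2 := by positivity
  refine ⟨1 / (4 * K2), by positivity, fun t₁ ht₁ A μ hμ hA hsmall => ?_⟩
  have hμ0 : 0 < μ := by linarith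
  set P : ℝ := μ ^ (γ + d) with hP
  have hP0 : 0 < P := by positivity
  have hTt : 0 < T - t₁ := by linarith [ht₁.2]
  have hA0 : 0 ≤ A := by
    have h1 := (h.nonneg t₁ ht₁ 0 0).trans (hA 0 0)
    exact nonneg_of_mul_nonneg_left h1 (φs_pos N _ 0)
  set A1 : ℝ := A + 1 / (4 * K2 * P * (T - t₁)) with hA1
  have hA10 : 0 < A1 := by positivity
  have hA1s : K2 * P * (T - t₁) * A1 ≤ 1 / 2 := by
    have e1 : K2 * P * (T - t₁) * A1 = K2 * (A * P * (T - t₁)) + 1 / 4 := by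
      rw [hA1, mul_add]
      have : K2 * P * (T - t₁) * (1 / (4 * K2 * P * (T - t₁))) = 1 / 4 := by field_simp
      rw [this]; ring
    have e2 : K2 * (A * P * (T - t₁)) ≤ K2 * (1 / (4 * K2)) := mul_le_mul_of_nonneg_left hsmall hK20.le
    have e3 : K2 * (1 / (4 * K2)) = 1 / 4 := by field_simp
    rw [e1]; linarith
  set D : ℝ → ℝ := fun t => 1 / A1 - K2 * P * (t - t₁) with hD
  have hDlow : ∀ t, t ≤ T → 1 / (2 * A1) ≤ D t := fun t ht => by
    simp only [hD]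
    have g1 : K2 * P * (t - t₁) ≤ K2 * P * (T - t₁) :=
      mul_le_mul_of_nonneg_left (by linarith) (by positivity)
    have g2 : K2 * P * (T - t₁) ≤ 1 / (2 * A1) := by
      rw [le_div_iff₀ (by positivity)]; linarith
    have g3 : 1 / A1 = 1 / (2 * A1) + 1 / (2 * A1) := by field_simp; ring
    linarith
  have hDpos : ∀ t, t ≤ T → 0 < D t := fun t ht => lt_of_lt_of_le (by positivity) (hDlow t ht)
  have hDd : ∀ t, HasDerivAt D (-(K2 * P)) t := fun t => by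
    have g1 : HasDerivAt (fun t : ℝ => K2 * P * (t - t₁)) (K2 * P * 1) t :=
      ((hasDerivAt_id t).sub_const t₁).const_mul (K2 * P)
    have g2 := g1.const_sub (1 / A1)
    rw [mul_one] at g2
    exact g2
  have hDc : Continuous D := by rw [hD]; fun_prop
  have hbar := Pool.Agent.H878.KS.BARR d T t₁ f N (fun t => (D t)⁻¹) (fun t => K2 * P / D t ^ 2) (fun _ => μ)
    h.periodic h.cont h.decay h.diff ht₁ continuousOn_const (fun _ _ _ _ _ => le_rfl) (fun _ _ => hμ)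
    (hDc.continuousOn.inv₀ fun t ht => (hDpos t ht.2.le).ne')
    (by
      intro t ht t' ht' htt
      have g1 := hDpos t' ht'.2.le
      refine inv_anti₀ g1 ?_
      simp only [hD]
      have := mul_le_mul_of_nonneg_left (by linarith : t - t₁ ≤ t' - t₁) (by positivity : 0 ≤ K2 * P)
      linarith)
    (inv_pos.2 (hDpos t₁ ht₁.2.le))
    (by
      intro t ht
      have g1 := (hDd t).inv (hDpos t ht.2.le).ne'
      refine g1.congr_deriv ?_
      rw [neg_neg])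
    (by
      intro x v
      have e0 : (D t₁)⁻¹ = A1 := by simp [hD]
      simp only [e0]
      have g1 := hA x v
      have g2 := φs_pos N μ v
      have g3 : A < A1 := by rw [hA1]; have : 0 < 1 / (4 * K2 * P * (T - t₁)) := by positivity
                             linarith
      exact g1.trans_lt (mul_lt_mul_of_pos_right g3 g2))
    (by
      intro t htI x v hle hv
      have ht0 : t ∈ Ioo 0 T := ⟨ht₁.1.trans_lt htI.1, htI.2⟩
      have ht0' : t ∈ Ico 0 T := ⟨ht0.1.le, ht0.2⟩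
      have hDt := hDpos t htI.2.le
      have hDf := ht t ht0 x v (D t)⁻¹ μ hμ hle hv
      have hq := hmom (f t x) (h.measurable ht0' x) (D t)⁻¹ μ (inv_pos.2 hDt).le hμ0 hle v
      have hq2 : (momS γ γ 2 μ (f t x) v).toReal ≤ K1 * (D t)⁻¹ * P :=
        ENNReal.toReal_le_of_le_ofReal (by positivity) hq
      have hφ := φs_pos N μ v
      refine hDf.trans_lt ?_
      rw [hv]
      have g1 : C * ((D t)⁻¹ * φs N μ v) * (momS γ γ 2 μ (f t x) v).toReal ≤
          C * ((D t)⁻¹ * φs N μ v) * (K1 * (D t)⁻¹ * P) :=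
        mul_le_mul_of_nonneg_left hq2 (by positivity)
      refine g1.trans_lt ?_
      have e : K2 * P / D t ^ 2 * φs N μ v =
          C * ((D t)⁻¹ * φs N μ v) * (K1 * (D t)⁻¹ * P) + (D t)⁻¹ ^ 2 * P * φs N μ v := by
        rw [hK2, div_eq_mul_inv, ← inv_pow]; ring
      rw [e]
      have : 0 < (D t)⁻¹ ^ 2 * P * φs N μ v := by positivity
      linarith)
  refine ⟨2 * A1, by positivity, fun t ht x v => (hbar t ht x v).le.trans ?_⟩
  refine mul_le_mul_of_nonneg_right ?_ (φs_pos N μ v).le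
  have g1 := hDlow t ht.2.le
  calc (D t)⁻¹ ≤ (1 / (2 * A1))⁻¹ := inv_anti₀ (by positivity) g1
    _ = 2 * A1 := by rw [one_div, inv_inv]

/-- **barrier step** at the scale `L r(t)^(1/d)` -/
theorem stepC (hd : 2 ≤ d) {γ : ℝ} (hγ : -(d : ℝ) < γ) (hγ0 : γ < 0)
    {T : ℝ} {f : ℝ → V d → V d → ℝ} (hT : 0 < T) (h : Kin T f)
    (htouch : ∀ N : ℕ, (d : ℝ) + 6 ≤ 2 * N → ∃ C : ℝ, 0 ≤ C ∧ Touch C γ N T f)
    {r Φ : ℝ → ℝ} (hrc : ContinuousOn r (Ico 0 T)) (hΦc : ContinuousOn Φ (Ico 0 T))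
    (hrm : MonotoneOn r (Ico 0 T)) (hr1 : ∀ t ∈ Ico 0 T, 1 ≤ r t) (hΦ1 : ∀ t ∈ Ico 0 T, 1 ≤ Φ t)
    (hW : IntegrableOn (fun t => r t ^ (1 + γ / d) * Φ t ^ (-γ / d)) (Ico 0 T))
    (hρ : ∀ t ∈ Ico 0 T, ∀ x, ∫ v, f t x v ≤ r t) (hF : ∀ t ∈ Ico 0 T, ∀ x v, f t x v ≤ Φ t)
    (N₀ : ℕ) : ∃ (N : ℕ) (K L : ℝ), N₀ ≤ N ∧ (d : ℝ) + 6 ≤ 2 * N ∧ 0 ≤ K ∧ 1 ≤ L ∧
      ∀ t ∈ Ico 0 T, ∀ x v, f t x v ≤ K * φs N (L * r t ^ (1 / (d : ℝ))) v := by
  have hd2 : (2 : ℝ) ≤ d := by exact_mod_cast hd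
  have hd0 : (0 : ℝ) < d := by linarith
  have hdγ : 0 < (d : ℝ) + γ := by linarith
  have h0T : (0 : ℝ) ∈ Ico 0 T := ⟨le_rfl, hT⟩
  set κ : ℝ := -γ / 2 with hκ
  have hκ0 : 0 < κ := by rw [hκ]; linarith
  obtain ⟨k, hk⟩ := exists_nat_ge (((d : ℝ) + γ + 1) / (2 * κ))
  rw [div_le_iff₀ (by positivity)] at hk
  set N' : ℕ := k + N₀ + 6 with hN'
  have hN'κ : (d : ℝ) + γ + 1 ≤ 2 * N' * κ := by
    have : (k : ℝ) ≤ N' := by rw [hN']; push_cast; linarith [(by positivity : (0:ℝ) ≤ N₀)]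
    nlinarith
  set N : ℕ := d + 1 + 1 + N' with hN
  have hN6 : (d : ℝ) + 6 ≤ 2 * N := by
    rw [hN, hN']; push_cast
    linarith [(by positivity : (0:ℝ) ≤ N₀), (by positivity : (0:ℝ) ≤ k)]
  have hNN₀ : N₀ ≤ N := by omega
  obtain ⟨C, hC, htt⟩ := htouch N hN6
  obtain ⟨Cm, hCm, hmom⟩ := MOM d hd γ hγ hγ0 (d + 1) (by push_cast; linarith)
  obtain ⟨A, hA, hAb⟩ := h.decayφ h0T N
  set W : ℝ → ℝ := fun t => r t ^ (1 + γ / d) * Φ t ^ (-γ / d) with hWdef
  have hr0 : ∀ t ∈ Ico 0 T, 0 < r t := fun t ht => by linarith [hr1 t ht]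
  have hΦ0 : ∀ t ∈ Ico 0 T, 0 < Φ t := fun t ht => by linarith [hΦ1 t ht]
  have hWpos : ∀ t ∈ Ico 0 T, 0 < W t := fun t ht => by
    have g1 := hr0 t ht
    have g2 := hΦ0 t ht
    simp only [hWdef]; positivity
  have hWc : ContinuousOn W (Ico 0 T) :=
    (hrc.rpow_const fun t ht => Or.inl (hr0 t ht).ne').mul
      (hΦc.rpow_const fun t ht => Or.inl (hΦ0 t ht).ne')
  set C3 : ℝ := 3 * Cm + 1 with hC3
  have hC30 : 0 < C3 := by positivity
  have hWi : ∀ t ∈ Ico 0 T, IntervalIntegrable W volume 0 t := fun t ht => by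
    rw [intervalIntegrable_iff_integrableOn_Ico_of_le ht.1]
    exact hW.mono_set (Ico_subset_Ico_right ht.2.le)
  set J : ℝ → ℝ := fun t => ∫ τ in (0:ℝ)..t, W τ with hJ
  set Tot : ℝ := ∫ τ in Ico 0 T, W τ with hTot
  have hJd : ∀ t ∈ Ioo 0 T, HasDerivAt J (W t) t := fun t ht =>
    intervalIntegral.integral_hasDerivAt_right (hWi t ⟨ht.1.le, ht.2⟩)
      (ContinuousOn.stronglyMeasurableAtFilter isOpen_Ioo
        (hWc.mono fun s hs => ⟨hs.1.le, hs.2⟩) t ht) (hWc.continuousAt (Ico_mem_nhds ht.1 ht.2))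
  have hJm : MonotoneOn J (Ico 0 T) := by
    intro t ht t' ht' htt'
    have e1 : J t' - J t = ∫ τ in t..t', W τ :=
      intervalIntegral.integral_interval_sub_left (hWi t' ht') (hWi t ht)
    have e2 : 0 ≤ ∫ τ in t..t', W τ :=
      intervalIntegral.integral_nonneg htt' fun s hs => (hWpos s ⟨ht.1.trans hs.1, hs.2.trans_lt ht'.2⟩).le
    linarith
  have hJ0 : J 0 = 0 := by simp [hJ]
  have hJtot : ∀ t ∈ Ico 0 T, J t ≤ Tot := fun t ht => by
    simp only [hJ, hTot]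
    rw [intervalIntegral.integral_of_le ht.1, ← integral_Ico_eq_integral_Ioc]
    refine setIntegral_mono_set hW ?_ (Ico_subset_Ico_right ht.2.le).eventuallyLE
    exact (ae_restrict_iff' measurableSet_Ico).2 (Eventually.of_forall fun s hs => (hWpos s hs).le)
  have hJc : ContinuousOn J (Ico 0 T) := by
    intro t ht
    rcases ht.1.eq_or_lt with h0 | h0
    · -- right continuity at `0`
      have ht2 : T / 2 ∈ Ico 0 T := ⟨by linarith, by linarith⟩
      have g1 := intervalIntegral.continuousOn_primitive_interval (f := W) (μ := volume)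
        (a := 0) (b := T / 2) (by
          rw [uIcc_of_le ht2.1]
          exact (hWc.mono fun s hs => ⟨hs.1, hs.2.trans_lt ht2.2⟩).integrableOn_Icc)
      rw [uIcc_of_le ht2.1] at g1
      have g2 := g1 0 ⟨le_rfl, ht2.1⟩
      rw [← h0]
      refine g2.mono_of_mem_nhdsWithin ?_
      rw [mem_nhdsWithin]
      refine ⟨Iio (T / 2), isOpen_Iio, by simp only [mem_Iio]; linarith, fun s hs => ?_⟩
      exact ⟨hs.2.1, hs.1.le⟩
    · exact (hJd t ⟨h0, ht.2⟩).continuousAt.continuousWithinAt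
  set M : ℝ → ℝ := fun t => (A + 1) * Real.exp ((C + 1) * (C3 * J t)) with hM
  set M' : ℝ → ℝ := fun t => M t * ((C + 1) * (C3 * W t)) with hM'
  set K : ℝ := (A + 1) * Real.exp ((C + 1) * (C3 * Tot)) with hK
  have hK0 : 0 ≤ K := by positivity
  set L : ℝ := max 1 K with hL
  have hL1 : 1 ≤ L := le_max_left _ _
  have hKL : K ≤ L := le_max_right _ _
  have hL0 : 0 < L := by linarith
  set μ : ℝ → ℝ := fun t => L * r t ^ (1 / (d : ℝ)) with hμ
  have hs1 : ∀ t ∈ Ico 0 T, 1 ≤ r t ^ (1 / (d : ℝ)) := fun t ht =>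
    Real.one_le_rpow (hr1 t ht) (by positivity)
  have hμ1 : ∀ t ∈ Ico 0 T, 1 ≤ μ t := fun t ht => by
    simp only [hμ]
    exact one_le_mul_of_one_le_of_one_le hL1 (hs1 t ht)
  have hMpos : ∀ t, 0 < M t := fun t => by rw [hM]; positivity
  have hMK : ∀ t ∈ Ico 0 T, M t ≤ K := fun t ht => by
    have := hJtot t ht
    rw [hM, hK]
    simp only
    gcongr
  have hbar := Pool.Agent.H878.KS.BARR d T 0 f N M M' μ h.periodic h.cont h.decay h.diff h0T
    (by
      rw [hμ]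
      exact ContinuousOn.mul continuousOn_const
        (hrc.rpow_const fun t ht => Or.inl (hr0 t ht).ne'))
    (by
      intro t ht t' ht' htt'
      simp only [hμ]
      exact mul_le_mul_of_nonneg_left
        (Real.rpow_le_rpow (hr0 t ht).le (hrm ht ht' htt') (by positivity)) hL0.le)
    hμ1
    (by
      rw [hM]
      exact ContinuousOn.mul continuousOn_const (Real.continuous_exp.comp_continuousOn
        ((hJc.const_mul C3).const_mul (C + 1))))
    (by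
      intro t ht t' ht' htt'
      simp only [hM]
      have := hJm ht ht' htt'
      gcongr)
    (hMpos 0)
    (by
      intro t ht
      have g5 := (((hJd t ht).const_mul C3).const_mul (C + 1)).exp.const_mul (A + 1)
      refine g5.congr_deriv ?_
      simp only [hM', hM]
      ring)
    (by
      intro x v
      have e0 : M 0 = A + 1 := by simp only [hM, hJ0, mul_zero, Real.exp_zero, mul_one]
      rw [e0]
      have g1 := hAb 0 ⟨le_rfl, le_rfl⟩ x v
      have g2 : φ N v ≤ φs N (μ 0) v := by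
        rw [← φs_one]
        exact φs_mono N one_pos (hμ1 0 h0T) v
      have g3 := φs_pos N (μ 0) v
      have g4 := mul_le_mul_of_nonneg_left g2 hA
      linarith [mul_pos (by linarith : (0:ℝ) < A + 1) g3])
    (by
      intro t ht x v hle hv
      have htI : t ∈ Ico 0 T := ⟨ht.1.le, ht.2⟩
      have hD := htt t ht x v (M t) (μ t) (hμ1 t htI) hle hv
      have hleK : ∀ w, f t x w ≤ K * φs (d + 1 + 1 + N') (μ t) w := fun w =>
        (hle w).trans (mul_le_mul_of_nonneg_right (hMK t htI) (φs_pos _ _ _).le)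
      have hR : 1 ≤ L ^ κ := Real.one_le_rpow hL1 hκ0.le
      have hrt := hr0 t htI
      have hΦt := hΦ0 t htI
      have hμt : 0 < μ t := lt_of_lt_of_le one_pos (hμ1 t htI)
      have hq := hmom N' (f t x) (h.measurable htI x) (h.nonneg t htI x) (h.integrable htI x)
        (r t) (Φ t) hrt hΦt (hρ t htI x) (hF t htI x) K (μ t) (L ^ κ) hK0 hμt hR hleK v
      have hWt := hWpos t htI
      have hrW : r t ^ (1 + γ / d) ≤ W t := by
        simp only [hWdef]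
        refine le_mul_of_one_le_right (by positivity) (Real.one_le_rpow (hΦ1 t htI) ?_)
        have : 0 < -γ := by linarith
        positivity
      -- `μ^γ`
      have eμ : ∀ p : ℝ, μ t ^ p = L ^ p * r t ^ (p / d) := fun p => by
        simp only [hμ]
        rw [Real.mul_rpow hL0.le (by positivity), ← Real.rpow_mul hrt.le]
        congr 2; ring
      have t2 : μ t ^ γ * ((L ^ κ) ^ 2 * r t) ≤ W t := by
        have e1 : μ t ^ γ * ((L ^ κ) ^ 2 * r t) = L ^ (γ + κ * 2) * r t ^ (1 + γ / d) := by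
          rw [eμ, ← Real.rpow_natCast (L ^ κ) 2, ← Real.rpow_mul hL0.le, Real.rpow_add hL0,
            Real.rpow_add hrt, Real.rpow_one]
          push_cast; ring
        have e2 : γ + κ * 2 = 0 := by rw [hκ]; ring
        rw [e1, e2, Real.rpow_zero, one_mul]
        exact hrW
      have t3 : μ t ^ γ * (K * μ t ^ d * ((L ^ κ) ^ (2 * N'))⁻¹) ≤ W t := by
        have e1 : μ t ^ γ * (K * μ t ^ d * ((L ^ κ) ^ (2 * N'))⁻¹) =
            K * L ^ (γ + d - κ * ((2 * N' : ℕ) : ℝ)) * r t ^ (1 + γ / d) := by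
          have e3 : μ t ^ γ * μ t ^ d = L ^ (γ + d) * r t ^ (1 + γ / d) := by
            rw [← Real.rpow_natCast (μ t) d, ← Real.rpow_add hμt, eμ]
            congr 2; field_simp; ring
          have e4 : ((L ^ κ) ^ (2 * N'))⁻¹ = L ^ (-(κ * ((2 * N' : ℕ) : ℝ))) := by
            rw [← Real.rpow_natCast (L ^ κ), ← Real.rpow_mul hL0.le, ← Real.rpow_neg hL0.le]
          calc μ t ^ γ * (K * μ t ^ d * ((L ^ κ) ^ (2 * N'))⁻¹)
              = K * (μ t ^ γ * μ t ^ d) * ((L ^ κ) ^ (2 * N'))⁻¹ := by ring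
            _ = K * (L ^ (γ + d) * L ^ (-(κ * ((2 * N' : ℕ) : ℝ)))) * r t ^ (1 + γ / d) := by
                rw [e3, e4]; ring
            _ = _ := by rw [← Real.rpow_add hL0]; rfl
        have e2 : L ^ (γ + d - κ * ((2 * N' : ℕ) : ℝ)) ≤ L ^ (-1 : ℝ) := by
          refine Real.rpow_le_rpow_of_exponent_le hL1 ?_
          push_cast
          linarith
        rw [Real.rpow_neg_one] at e2
        have e5 : K * L ^ (γ + d - κ * ((2 * N' : ℕ) : ℝ)) ≤ 1 := by
          calc K * L ^ (γ + d - κ * ((2 * N' : ℕ) : ℝ)) ≤ K * L⁻¹ := mul_le_mul_of_nonneg_left e2 hK0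
            _ = K / L := by ring
            _ ≤ 1 := (div_le_one hL0).2 hKL
        rw [e1]
        have hrp : 0 ≤ r t ^ (1 + γ / d) := by positivity
        calc K * L ^ (γ + d - κ * ((2 * N' : ℕ) : ℝ)) * r t ^ (1 + γ / d) ≤ 1 * r t ^ (1 + γ / d) :=
              mul_le_mul_of_nonneg_right e5 hrp
          _ ≤ W t := by rw [one_mul]; exact hrW
      have hsum : Cm * (r t ^ (1 + γ / d) * Φ t ^ (-γ / d)) +
          Cm * (μ t ^ γ * ((L ^ κ) ^ 2 * r t + K * μ t ^ d * ((L ^ κ) ^ (2 * N'))⁻¹)) ≤ C3 * W t := by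
        have g1 : Cm * (μ t ^ γ * ((L ^ κ) ^ 2 * r t + K * μ t ^ d * ((L ^ κ) ^ (2 * N'))⁻¹)) ≤
            Cm * (W t + W t) := by
          refine mul_le_mul_of_nonneg_left ?_ hCm
          rw [mul_add]; linarith
        have g2 : Cm * (r t ^ (1 + γ / d) * Φ t ^ (-γ / d)) = Cm * W t := rfl
        rw [g2, hC3]
        nlinarith
      have hq3 : (momS γ γ 2 (μ t) (f t x) v).toReal ≤ C3 * W t :=
        ENNReal.toReal_le_of_le_ofReal (by positivity) (hq.trans (ENNReal.ofReal_le_ofReal hsum))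
      have hφ := φs_pos N (μ t) v
      have hMt := hMpos t
      refine hD.trans_lt ?_
      rw [hv]
      have g1 : C * (M t * φs N (μ t) v) * (momS γ γ 2 (μ t) (f t x) v).toReal ≤
          C * (M t * φs N (μ t) v) * (C3 * W t) :=
        mul_le_mul_of_nonneg_left hq3 (by positivity)
      refine g1.trans_lt ?_
      simp only [hM']
      have g2 : 0 < M t * φs N (μ t) v * (C3 * W t) := by positivity
      have g3 : M t * ((C + 1) * (C3 * W t)) * φs N (μ t) v =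
          C * (M t * φs N (μ t) v) * (C3 * W t) + M t * φs N (μ t) v * (C3 * W t) := by ring
      rw [g3]
      linarith)
  refine ⟨N, K, L, hNN₀, hN6, hK0, hL1, fun t ht x v => ?_⟩
  exact (hbar t ht x v).le.trans (mul_le_mul_of_nonneg_right (hMK t ht) (φs_pos _ _ _).le)

/-- an integrable function on `[0,T)` is `≤ δ/(T-t)` somewhere -/
lemma exists_small {T : ℝ} (hT : 0 < T) {g : ℝ → ℝ} (hg : IntegrableOn g (Ico 0 T)) {δ : ℝ} (hδ : 0 < δ) :
    ∃ t ∈ Ico 0 T, g t * (T - t) ≤ δ := by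
  by_contra hcon
  push Not at hcon
  have h1 : IntegrableOn (fun t => (T - t)⁻¹) (Ico 0 T) := by
    refine Integrable.mono' (hg.const_mul δ⁻¹) ?_ ?_
    · exact ((measurable_const.sub measurable_id).inv).aestronglyMeasurable
    · refine (ae_restrict_iff' measurableSet_Ico).2 (Eventually.of_forall fun t ht => ?_)
      have hy : 0 < T - t := by linarith [ht.2]
      have h2 := hcon t ht
      rw [Real.norm_eq_abs, abs_of_pos (inv_pos.2 hy), inv_eq_one_div, div_le_iff₀ hy, mul_assoc,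
        ← div_eq_inv_mul, le_div_iff₀ hδ]
      linarith
  have h2 : IntervalIntegrable (fun t => (T - t)⁻¹) volume 0 T :=
    (intervalIntegrable_iff_integrableOn_Ico_of_le hT.le).2 h1
  have h3 : IntervalIntegrable (fun t => (t - T)⁻¹) volume 0 T := by
    have := h2.neg
    refine this.congr fun t _ => ?_
    simp only [Pi.neg_apply]
    rw [← inv_neg, neg_sub]
  rw [intervalIntegrable_sub_inv_iff] at h3
  rcases h3 with h3 | h3
  · exact hT.ne h3
  · exact h3 right_mem_uIcc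

/-- **continuation criterion** -/
theorem crit (hd : 2 ≤ d) {γ : ℝ} (hγ : -(d : ℝ) < γ) (hγ0 : γ < 0)
    {T : ℝ} {f : ℝ → V d → V d → ℝ} (hT : 0 < T) (h : Kin T f)
    (htouch : ∀ N : ℕ, (d : ℝ) + 6 ≤ 2 * N → ∃ C : ℝ, 0 ≤ C ∧ Touch C γ N T f)
    {r Φ : ℝ → ℝ} (hrc : ContinuousOn r (Ico 0 T)) (hΦc : ContinuousOn Φ (Ico 0 T))
    (hrm : MonotoneOn r (Ico 0 T)) (hr1 : ∀ t ∈ Ico 0 T, 1 ≤ r t) (hΦ1 : ∀ t ∈ Ico 0 T, 1 ≤ Φ t)
    (hW : IntegrableOn (fun t => r t ^ (1 + γ / d) * Φ t ^ (-γ / d)) (Ico 0 T))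
    (hρ : ∀ t ∈ Ico 0 T, ∀ x, ∫ v, f t x v ≤ r t) (hF : ∀ t ∈ Ico 0 T, ∀ x v, f t x v ≤ Φ t)
    (N₀ : ℕ) : ∃ B : ℝ, 0 ≤ B ∧ ∀ t ∈ Ico 0 T, ∀ x v, f t x v ≤ B * φ N₀ v := by
  have hd2 : (2 : ℝ) ≤ d := by exact_mod_cast hd
  have hd0 : (0 : ℝ) < d := by linarith
  obtain ⟨N, K, L, hNN₀, hN6, hK, hL, hb⟩ := stepC hd hγ hγ0 hT h htouch hrc hΦc hrm hr1 hΦ1 hW hρ hF N₀
  obtain ⟨C, hC, htt⟩ := htouch N hN6
  obtain ⟨c, hc, hrate⟩ := rateS hd hγ hγ0 h hN6 hC htt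
  have hL0 : 0 < L := by linarith
  -- a good time
  obtain ⟨t₁, ht₁, hsm⟩ := exists_small hT hW (δ := c / ((K + 1) * L ^ (γ + d))) (by positivity)
  have hr0 : 0 < r t₁ := by linarith [hr1 t₁ ht₁]
  have hTt : 0 < T - t₁ := by linarith [ht₁.2]
  have hrW : r t₁ ^ (1 + γ / d) ≤ r t₁ ^ (1 + γ / d) * Φ t₁ ^ (-γ / d) := by
    refine le_mul_of_one_le_right (by positivity) (Real.one_le_rpow (hΦ1 t₁ ht₁) ?_)
    have : 0 < -γ := by linarith
    positivity
  set μ : ℝ := L * r t₁ ^ (1 / (d : ℝ)) with hμ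
  have hμ1 : 1 ≤ μ := one_le_mul_of_one_le_of_one_le hL (Real.one_le_rpow (hr1 t₁ ht₁) (by positivity))
  have hμ0 : 0 < μ := by linarith
  have eμ : μ ^ (γ + d) = L ^ (γ + d) * r t₁ ^ (1 + γ / d) := by
    rw [hμ, Real.mul_rpow hL0.le (by positivity), ← Real.rpow_mul hr0.le]
    congr 2; field_simp; ring
  obtain ⟨B, hB, hBb⟩ := hrate t₁ ht₁ K μ hμ1 (hb t₁ ht₁) (by
    rw [eμ]
    have g1 : r t₁ ^ (1 + γ / d) * (T - t₁) ≤ c / ((K + 1) * L ^ (γ + d)) :=
      (mul_le_mul_of_nonneg_right hrW hTt.le).trans hsm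
    rw [le_div_iff₀ (by positivity)] at g1
    have g2 : 0 ≤ r t₁ ^ (1 + γ / d) * (T - t₁) * L ^ (γ + d) := by positivity
    nlinarith)
  obtain ⟨K2, hK2, hb2⟩ := h.decayφ ht₁ N₀
  refine ⟨max (B * μ ^ (2 * N)) K2, le_max_of_le_right hK2, fun t ht x v => ?_⟩
  rcases le_total t t₁ with g | g
  · exact (hb2 t ⟨ht.1, g⟩ x v).trans (mul_le_mul_of_nonneg_right (le_max_right _ _) (φ_pos _ v).le)
  · have g1 := hBb t ⟨g, ht.2⟩ x v
    have g2 := φs_scale N hμ1 one_pos v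
    rw [mul_one, φs_one] at g2
    have g3 : φ N v ≤ φ N₀ v := by
      have := φs_anti hNN₀ one_pos v
      rwa [φs_one, φs_one] at this
    have g4 : 0 ≤ μ ^ (2 * N) := by positivity
    calc f t x v ≤ B * φs N μ v := g1
      _ ≤ B * (μ ^ (2 * N) * φ N₀ v) := by gcongr; exact g2.trans (mul_le_mul_of_nonneg_left g3 g4)
      _ = B * μ ^ (2 * N) * φ N₀ v := by ring
      _ ≤ _ := mul_le_mul_of_nonneg_right (le_max_left _ _) (φ_pos _ v).le

end Pool.Agent.H43.KS
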