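import Pool.Agent.H43.KS.Crit

/-!
# Continuation criterion with the collision frequency and a velocity scale

`r` majorant of the mass density, `ν` majorant of `∫ f(w) |v-w|^γ dw`, `m ≥ 1` nondecreasing; if
`∫_0^T (ν + m^γ r + m^(d+γ)) dt < ∞`, then all weighted sup norms stay bounded.
-/

set_option autoImplicit false

open MeasureTheory Metric Set Filter Topology
open scoped RealInnerProductSpace ENNReal

namespace Pool.Agent.H43.KS

open Pool.Agent.H821.BZ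

variable {d : ℕ}

/-- the moment bound (proof of `Pool.Agent.H878.KS.MOMT`, with the singular part as a datum) -/
theorem momM (γ : ℝ) {n : ℕ} (hn : (d : ℝ) < 2 * n) : ∃ C : ℝ, 0 ≤ C ∧ ∀ N' : ℕ,
    ∀ f : V d → ℝ, Measurable f → (∀ w, 0 ≤ f w) → Integrable f → ∀ r ν : ℝ, 0 ≤ r → 0 ≤ ν →
    ∫ w, f w ≤ r → ∀ K μ R : ℝ, 0 ≤ K → 0 < μ → 1 ≤ R →
    (∀ w, f w ≤ K * φs (n + 1 + N') μ w) → ∀ v : V d,
    ∫⁻ w : V d, ENNReal.ofReal (f w * ‖w - v‖ ^ γ) ≤ ENNReal.ofReal ν →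
    momS γ γ 2 μ f v ≤ ENNReal.ofReal (ν +
      C * (μ ^ γ * (R ^ 2 * r + K * μ ^ d * (R ^ (2 * N'))⁻¹))) := by
  obtain ⟨P, hP⟩ : ∃ P : ℝ, P = ∫ w : V d, φ n w := ⟨_, rfl⟩
  have hP0 : 0 ≤ P := by rw [hP]; exact integral_nonneg fun w => (φ_pos n w).le
  refine ⟨4 + 2 * P, by positivity, ?_⟩
  intro N' f hfm hf0 hfi r ν hr hν hfr K μ R hK hμ hR hle v h1
  have hR0 : 0 < R := by linarith
  have hμγ : 0 < μ ^ γ := Real.rpow_pos_of_pos hμ γ
  have hφs : Integrable (fun w : V d => φs n μ w) := integrable_φs hn hμ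
  have hφv : ∫ w : V d, φs n μ w = μ ^ d * P := by rw [int_φs n hμ, hP]
  have hpt : ∀ w, f w * (μ ^ γ * ((‖w - v‖ / μ) ^ γ + (1 + ‖w‖ / μ) ^ (2 : ℝ))) ≤
      f w * ‖w - v‖ ^ γ +
        μ ^ γ * (4 * R ^ 2 * f w + 2 * K * (R ^ (2 * N'))⁻¹ * φs n μ w) := by
    intro w
    have h1 := Pool.Agent.H878.KS.momt_pt n N' hf0 hK hμ hR hle w
    have h2 : μ ^ γ * (‖w - v‖ / μ) ^ γ = ‖w - v‖ ^ γ := by
      rw [Real.div_rpow (norm_nonneg _) hμ.le, mul_div_cancel₀ _ hμγ.ne']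
    have h3 : (1 + ‖w‖ / μ) ^ (2 : ℝ) = (1 + ‖w‖ / μ) ^ 2 := by norm_cast
    rw [h3]
    calc f w * (μ ^ γ * ((‖w - v‖ / μ) ^ γ + (1 + ‖w‖ / μ) ^ 2))
        = f w * (μ ^ γ * (‖w - v‖ / μ) ^ γ) + μ ^ γ * (f w * (1 + ‖w‖ / μ) ^ 2) := by ring
      _ ≤ _ := by
          rw [h2]
          have := mul_le_mul_of_nonneg_left h1 hμγ.le
          linarith
  have hnn : ∀ w, 0 ≤ μ ^ γ * (4 * R ^ 2 * f w + 2 * K * (R ^ (2 * N'))⁻¹ * φs n μ w) := by
    intro w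
    have h1 := hf0 w
    have h2 := φs_pos n μ w
    positivity
  have hint1 : Integrable (fun w : V d => 4 * R ^ 2 * f w) := hfi.const_mul _
  have hint2 : Integrable (fun w : V d => 2 * K * (R ^ (2 * N'))⁻¹ * φs n μ w) :=
    hφs.const_mul _
  have hint : Integrable (fun w : V d =>
      μ ^ γ * (4 * R ^ 2 * f w + 2 * K * (R ^ (2 * N'))⁻¹ * φs n μ w)) :=
    (hint1.add hint2).const_mul _
  have hA : Measurable (fun w : V d => ENNReal.ofReal (f w * ‖w - v‖ ^ γ)) := by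
    refine (hfm.mul ?_).ennreal_ofReal
    fun_prop
  have h2 : ∫⁻ w : V d, ENNReal.ofReal
      (μ ^ γ * (4 * R ^ 2 * f w + 2 * K * (R ^ (2 * N'))⁻¹ * φs n μ w)) ≤
      ENNReal.ofReal (μ ^ γ * (4 * R ^ 2 * r + 2 * K * (R ^ (2 * N'))⁻¹ * (μ ^ d * P))) := by
    rw [← ofReal_integral_eq_lintegral_ofReal hint (ae_of_all _ hnn)]
    apply ENNReal.ofReal_le_ofReal
    rw [integral_const_mul, integral_add hint1 hint2, integral_const_mul, integral_const_mul, hφv]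
    gcongr
  unfold momS
  calc ∫⁻ w : V d, ENNReal.ofReal (f w * (μ ^ γ * ((‖w - v‖ / μ) ^ γ + (1 + ‖w‖ / μ) ^ (2 : ℝ))))
      ≤ ∫⁻ w : V d, (ENNReal.ofReal (f w * ‖w - v‖ ^ γ) + ENNReal.ofReal
        (μ ^ γ * (4 * R ^ 2 * f w + 2 * K * (R ^ (2 * N'))⁻¹ * φs n μ w))) := by
        refine lintegral_mono fun w => ?_
        exact (ENNReal.ofReal_le_ofReal (hpt w)).trans ENNReal.ofReal_add_le
    _ = (∫⁻ w : V d, ENNReal.ofReal (f w * ‖w - v‖ ^ γ)) + ∫⁻ w : V d, ENNReal.ofReal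
        (μ ^ γ * (4 * R ^ 2 * f w + 2 * K * (R ^ (2 * N'))⁻¹ * φs n μ w)) :=
        lintegral_add_left hA _
    _ ≤ ENNReal.ofReal ν +
        ENNReal.ofReal (μ ^ γ * (4 * R ^ 2 * r + 2 * K * (R ^ (2 * N'))⁻¹ * (μ ^ d * P))) :=
        add_le_add h1 h2
    _ = ENNReal.ofReal (ν +
        μ ^ γ * (4 * R ^ 2 * r + 2 * K * (R ^ (2 * N'))⁻¹ * (μ ^ d * P))) :=
        (ENNReal.ofReal_add (by positivity) (by positivity)).symm
    _ ≤ _ := by
        apply ENNReal.ofReal_le_ofReal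
        obtain ⟨Y, hY⟩ : ∃ Y, Y = R ^ 2 * r := ⟨_, rfl⟩
        obtain ⟨Z, hZ⟩ : ∃ Z, Z = K * μ ^ d * (R ^ (2 * N'))⁻¹ := ⟨_, rfl⟩
        have hY0 : 0 ≤ Y := by rw [hY]; positivity
        have hZ0 : 0 ≤ Z := by rw [hZ]; positivity
        have e1 : 4 * R ^ 2 * r + 2 * K * (R ^ (2 * N'))⁻¹ * (μ ^ d * P) = 4 * Y + 2 * P * Z := by
          rw [hY, hZ]
          ring
        rw [e1, ← hY, ← hZ]
        have h4 : 4 * Y + 2 * P * Z ≤ (4 + 2 * P) * (Y + Z) := by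
          have i3 := mul_nonneg hP0 hY0
          nlinarith
        have h5 := mul_le_mul_of_nonneg_left h4 hμγ.le
        calc ν + μ ^ γ * (4 * Y + 2 * P * Z)
            ≤ ν + μ ^ γ * ((4 + 2 * P) * (Y + Z)) := by linarith
          _ = _ := by ring

/-- **barrier step** at the scale `L r(t)^(1/d)` -/
theorem stepM (hd : 2 ≤ d) {γ : ℝ} (hγ : -(d : ℝ) < γ) (hγ0 : γ < 0)
    {T : ℝ} {f : ℝ → V d → V d → ℝ} (hT : 0 < T) (h : Kin T f)
    (htouch : ∀ N : ℕ, (d : ℝ) + 6 ≤ 2 * N → ∃ C : ℝ, 0 ≤ C ∧ Touch C γ N T f)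
    {r ν m : ℝ → ℝ} (hrc : ContinuousOn r (Ico 0 T)) (hνc : ContinuousOn ν (Ico 0 T))
    (hmc : ContinuousOn m (Ico 0 T)) (hmm : MonotoneOn m (Ico 0 T)) (hm1 : ∀ t ∈ Ico 0 T, 1 ≤ m t)
    (hr0 : ∀ t ∈ Ico 0 T, 0 ≤ r t) (hν0 : ∀ t ∈ Ico 0 T, 0 ≤ ν t)
    (hW : IntegrableOn (fun t => ν t + m t ^ γ * r t + m t ^ (γ + d)) (Ico 0 T))
    (hρ : ∀ t ∈ Ico 0 T, ∀ x, ∫ v, f t x v ≤ r t)
    (hν : ∀ t ∈ Ico 0 T, ∀ x v, ∫⁻ w : V d, ENNReal.ofReal (f t x w * ‖w - v‖ ^ γ) ≤ ENNReal.ofReal (ν t))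
    (N₀ : ℕ) : ∃ (N : ℕ) (K L : ℝ), N₀ ≤ N ∧ (d : ℝ) + 6 ≤ 2 * N ∧ 0 ≤ K ∧ 1 ≤ L ∧
      ∀ t ∈ Ico 0 T, ∀ x v, f t x v ≤ K * φs N (L * m t) v := by
  have hd2 : (2 : ℝ) ≤ d := by exact_mod_cast hd
  have hd0 : (0 : ℝ) < d := by linarith
  have hdγ : 0 < (d : ℝ) + γ := by linarith
  have h0T : (0 : ℝ) ∈ Ico 0 T := ⟨le_rfl, hT⟩
  set κ : ℝ := -γ / 2 with hκ
  have hκ0 : 0 < κ := by rw [hκ]; linarith
  obtain ⟨k, hk⟩ := exists_nat_ge (((d : ℝ) + γ + 1) / (2 * κ))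
  rw [div_le_iff₀ (by positivity)] at hk
  set N' : ℕ := k + N₀ + 6 with hN'
  have hN'κ : (d : ℝ) + γ + 1 ≤ 2 * N' * κ := by
    have : (k : ℝ) ≤ N' := by rw [hN']; push_cast; linarith [(by positivity : (0:ℝ) ≤ N₀)]
    nlinarith
  set N : ℕ := d + 1 + 1 + N' with hN
  have hN6 : (d : ℝ) + 6 ≤ 2 * N := by
    rw [hN, hN']; push_cast
    linarith [(by positivity : (0:ℝ) ≤ N₀), (by positivity : (0:ℝ) ≤ k)]
  have hNN₀ : N₀ ≤ N := by omega
  obtain ⟨C, hC, htt⟩ := htouch N hN6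
  obtain ⟨Cm, hCm, hmom⟩ := momM (d := d) γ (n := d + 1) (by push_cast; linarith)
  obtain ⟨A, hA, hAb⟩ := h.decayφ h0T N
  set W : ℝ → ℝ := fun t => ν t + m t ^ γ * r t + m t ^ (γ + d) with hWdef
  have hm0 : ∀ t ∈ Ico 0 T, 0 < m t := fun t ht => by linarith [hm1 t ht]
  have hWpos : ∀ t ∈ Ico 0 T, 0 < W t := fun t ht => by
    have g1 := hr0 t ht
    have g2 := hν0 t ht
    have g3 := hm0 t ht
    simp only [hWdef]; positivity
  have hWc : ContinuousOn W (Ico 0 T) :=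
    (hνc.add ((hmc.rpow_const fun t ht => Or.inl (hm0 t ht).ne').mul hrc)).add
      (hmc.rpow_const fun t ht => Or.inl (hm0 t ht).ne')
  set C3 : ℝ := 2 * Cm + 1 with hC3
  have hC30 : 0 < C3 := by positivity
  have hWi : ∀ t ∈ Ico 0 T, IntervalIntegrable W volume 0 t := fun t ht => by
    rw [intervalIntegrable_iff_integrableOn_Ico_of_le ht.1]
    exact hW.mono_set (Ico_subset_Ico_right ht.2.le)
  set J : ℝ → ℝ := fun t => ∫ τ in (0:ℝ)..t, W τ with hJ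
  set Tot : ℝ := ∫ τ in Ico 0 T, W τ with hTot
  have hJd : ∀ t ∈ Ioo 0 T, HasDerivAt J (W t) t := fun t ht =>
    intervalIntegral.integral_hasDerivAt_right (hWi t ⟨ht.1.le, ht.2⟩)
      (ContinuousOn.stronglyMeasurableAtFilter isOpen_Ioo
        (hWc.mono fun s hs => ⟨hs.1.le, hs.2⟩) t ht) (hWc.continuousAt (Ico_mem_nhds ht.1 ht.2))
  have hJm : MonotoneOn J (Ico 0 T) := by
    intro t ht t' ht' htt'
    have e1 : J t' - J t = ∫ τ in t..t', W τ :=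
      intervalIntegral.integral_interval_sub_left (hWi t' ht') (hWi t ht)
    have e2 : 0 ≤ ∫ τ in t..t', W τ :=
      intervalIntegral.integral_nonneg htt' fun s hs => (hWpos s ⟨ht.1.trans hs.1, hs.2.trans_lt ht'.2⟩).le
    linarith
  have hJ0 : J 0 = 0 := by simp [hJ]
  have hJtot : ∀ t ∈ Ico 0 T, J t ≤ Tot := fun t ht => by
    simp only [hJ, hTot]
    rw [intervalIntegral.integral_of_le ht.1, ← integral_Ico_eq_integral_Ioc]
    refine setIntegral_mono_set hW ?_ (Ico_subset_Ico_right ht.2.le).eventuallyLE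
    exact (ae_restrict_iff' measurableSet_Ico).2 (Eventually.of_forall fun s hs => (hWpos s hs).le)
  have hJc : ContinuousOn J (Ico 0 T) := by
    intro t ht
    rcases ht.1.eq_or_lt with h0 | h0
    · -- right continuity at `0`
      have ht2 : T / 2 ∈ Ico 0 T := ⟨by linarith, by linarith⟩
      have g1 := intervalIntegral.continuousOn_primitive_interval (f := W) (μ := volume)
        (a := 0) (b := T / 2) (by
          rw [uIcc_of_le ht2.1]
          exact (hWc.mono fun s hs => ⟨hs.1, hs.2.trans_lt ht2.2⟩).integrableOn_Icc)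
      rw [uIcc_of_le ht2.1] at g1
      have g2 := g1 0 ⟨le_rfl, ht2.1⟩
      rw [← h0]
      refine g2.mono_of_mem_nhdsWithin ?_
      rw [mem_nhdsWithin]
      refine ⟨Iio (T / 2), isOpen_Iio, by simp only [mem_Iio]; linarith, fun s hs => ?_⟩
      exact ⟨hs.2.1, hs.1.le⟩
    · exact (hJd t ⟨h0, ht.2⟩).continuousAt.continuousWithinAt
  set M : ℝ → ℝ := fun t => (A + 1) * Real.exp ((C + 1) * (C3 * J t)) with hM
  set M' : ℝ → ℝ := fun t => M t * ((C + 1) * (C3 * W t)) with hM'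
  set K : ℝ := (A + 1) * Real.exp ((C + 1) * (C3 * Tot)) with hK
  have hK0 : 0 ≤ K := by positivity
  set L : ℝ := max 1 K with hL
  have hL1 : 1 ≤ L := le_max_left _ _
  have hKL : K ≤ L := le_max_right _ _
  have hL0 : 0 < L := by linarith
  set μ : ℝ → ℝ := fun t => L * m t with hμ
  have hμ1 : ∀ t ∈ Ico 0 T, 1 ≤ μ t := fun t ht => by
    simp only [hμ]
    exact one_le_mul_of_one_le_of_one_le hL1 (hm1 t ht)
  have hMpos : ∀ t, 0 < M t := fun t => by rw [hM]; positivity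
  have hMK : ∀ t ∈ Ico 0 T, M t ≤ K := fun t ht => by
    have := hJtot t ht
    rw [hM, hK]
    simp only
    gcongr
  have hbar := Pool.Agent.H878.KS.BARR d T 0 f N M M' μ h.periodic h.cont h.decay h.diff h0T
    (by
      rw [hμ]
      exact ContinuousOn.mul continuousOn_const hmc)
    (by
      intro t ht t' ht' htt'
      simp only [hμ]
      exact mul_le_mul_of_nonneg_left (hmm ht ht' htt') hL0.le)
    hμ1
    (by
      rw [hM]
      exact ContinuousOn.mul continuousOn_const (Real.continuous_exp.comp_continuousOn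
        ((hJc.const_mul C3).const_mul (C + 1))))
    (by
      intro t ht t' ht' htt'
      simp only [hM]
      have := hJm ht ht' htt'
      gcongr)
    (hMpos 0)
    (by
      intro t ht
      have g5 := (((hJd t ht).const_mul C3).const_mul (C + 1)).exp.const_mul (A + 1)
      refine g5.congr_deriv ?_
      simp only [hM', hM]
      ring)
    (by
      intro x v
      have e0 : M 0 = A + 1 := by simp only [hM, hJ0, mul_zero, Real.exp_zero, mul_one]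
      rw [e0]
      have g1 := hAb 0 ⟨le_rfl, le_rfl⟩ x v
      have g2 : φ N v ≤ φs N (μ 0) v := by
        rw [← φs_one]
        exact φs_mono N one_pos (hμ1 0 h0T) v
      have g3 := φs_pos N (μ 0) v
      have g4 := mul_le_mul_of_nonneg_left g2 hA
      linarith [mul_pos (by linarith : (0:ℝ) < A + 1) g3])
    (by
      intro t ht x v hle hv
      have htI : t ∈ Ico 0 T := ⟨ht.1.le, ht.2⟩
      have hD := htt t ht x v (M t) (μ t) (hμ1 t htI) hle hv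
      have hleK : ∀ w, f t x w ≤ K * φs (d + 1 + 1 + N') (μ t) w := fun w =>
        (hle w).trans (mul_le_mul_of_nonneg_right (hMK t htI) (φs_pos _ _ _).le)
      have hR : 1 ≤ L ^ κ := Real.one_le_rpow hL1 hκ0.le
      have hrt := hr0 t htI
      have hμt : 0 < μ t := lt_of_lt_of_le one_pos (hμ1 t htI)
      have hq := hmom N' (f t x) (h.measurable htI x) (h.nonneg t htI x) (h.integrable htI x)
        (r t) (ν t) hrt (hν0 t htI) (hρ t htI x) K (μ t) (L ^ κ) hK0 hμt hR hleK v (hν t htI x v)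
      have hWt := hWpos t htI
      have hmt := hm0 t htI
      have w1 : 0 ≤ m t ^ γ * r t := by positivity
      have w2 : 0 ≤ m t ^ (γ + d) := by positivity
      have w3 := hν0 t htI
      have hrW : m t ^ γ * r t ≤ W t := by
        simp only [hWdef]
        linarith
      have hmW : m t ^ (γ + d) ≤ W t := by
        simp only [hWdef]
        linarith
      have hνW : ν t ≤ W t := by
        simp only [hWdef]
        linarith
      -- `μ^γ`
      have eμ : ∀ p : ℝ, μ t ^ p = L ^ p * m t ^ p := fun p => by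
        simp only [hμ]
        rw [Real.mul_rpow hL0.le hmt.le]
      have t2 : μ t ^ γ * ((L ^ κ) ^ 2 * r t) ≤ W t := by
        have e1 : μ t ^ γ * ((L ^ κ) ^ 2 * r t) = L ^ (γ + κ * 2) * (m t ^ γ * r t) := by
          rw [eμ, ← Real.rpow_natCast (L ^ κ) 2, ← Real.rpow_mul hL0.le, Real.rpow_add hL0]
          push_cast; ring
        have e2 : γ + κ * 2 = 0 := by rw [hκ]; ring
        rw [e1, e2, Real.rpow_zero, one_mul]
        exact hrW
      have t3 : μ t ^ γ * (K * μ t ^ d * ((L ^ κ) ^ (2 * N'))⁻¹) ≤ W t := by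
        have e1 : μ t ^ γ * (K * μ t ^ d * ((L ^ κ) ^ (2 * N'))⁻¹) =
            K * L ^ (γ + d - κ * ((2 * N' : ℕ) : ℝ)) * m t ^ (γ + d) := by
          have e3 : μ t ^ γ * μ t ^ d = L ^ (γ + d) * m t ^ (γ + d) := by
            rw [← Real.rpow_natCast (μ t) d, ← Real.rpow_add hμt, eμ]
          have e4 : ((L ^ κ) ^ (2 * N'))⁻¹ = L ^ (-(κ * ((2 * N' : ℕ) : ℝ))) := by
            rw [← Real.rpow_natCast (L ^ κ), ← Real.rpow_mul hL0.le, ← Real.rpow_neg hL0.le]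
          calc μ t ^ γ * (K * μ t ^ d * ((L ^ κ) ^ (2 * N'))⁻¹)
              = K * (μ t ^ γ * μ t ^ d) * ((L ^ κ) ^ (2 * N'))⁻¹ := by ring
            _ = K * (L ^ (γ + d) * L ^ (-(κ * ((2 * N' : ℕ) : ℝ)))) * m t ^ (γ + d) := by
                rw [e3, e4]; ring
            _ = _ := by rw [← Real.rpow_add hL0]; rfl
        have e2 : L ^ (γ + d - κ * ((2 * N' : ℕ) : ℝ)) ≤ L ^ (-1 : ℝ) := by
          refine Real.rpow_le_rpow_of_exponent_le hL1 ?_
          push_cast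
          linarith
        rw [Real.rpow_neg_one] at e2
        have e5 : K * L ^ (γ + d - κ * ((2 * N' : ℕ) : ℝ)) ≤ 1 := by
          calc K * L ^ (γ + d - κ * ((2 * N' : ℕ) : ℝ)) ≤ K * L⁻¹ := mul_le_mul_of_nonneg_left e2 hK0
            _ = K / L := by ring
            _ ≤ 1 := (div_le_one hL0).2 hKL
        rw [e1]
        calc K * L ^ (γ + d - κ * ((2 * N' : ℕ) : ℝ)) * m t ^ (γ + d) ≤ 1 * m t ^ (γ + d) :=
              mul_le_mul_of_nonneg_right e5 w2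
          _ ≤ W t := by rw [one_mul]; exact hmW
      have hsum : ν t +
          Cm * (μ t ^ γ * ((L ^ κ) ^ 2 * r t + K * μ t ^ d * ((L ^ κ) ^ (2 * N'))⁻¹)) ≤ C3 * W t := by
        have g1 : Cm * (μ t ^ γ * ((L ^ κ) ^ 2 * r t + K * μ t ^ d * ((L ^ κ) ^ (2 * N'))⁻¹)) ≤
            Cm * (W t + W t) := by
          refine mul_le_mul_of_nonneg_left ?_ hCm
          rw [mul_add]; linarith
        rw [hC3]
        linarith
      have hq3 : (momS γ γ 2 (μ t) (f t x) v).toReal ≤ C3 * W t :=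
        ENNReal.toReal_le_of_le_ofReal (by positivity) (hq.trans (ENNReal.ofReal_le_ofReal hsum))
      have hφ := φs_pos N (μ t) v
      have hMt := hMpos t
      refine hD.trans_lt ?_
      rw [hv]
      have g1 : C * (M t * φs N (μ t) v) * (momS γ γ 2 (μ t) (f t x) v).toReal ≤
          C * (M t * φs N (μ t) v) * (C3 * W t) :=
        mul_le_mul_of_nonneg_left hq3 (by positivity)
      refine g1.trans_lt ?_
      simp only [hM']
      have g2 : 0 < M t * φs N (μ t) v * (C3 * W t) := by positivity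
      have g3 : M t * ((C + 1) * (C3 * W t)) * φs N (μ t) v =
          C * (M t * φs N (μ t) v) * (C3 * W t) + M t * φs N (μ t) v * (C3 * W t) := by ring
      rw [g3]
      linarith)
  refine ⟨N, K, L, hNN₀, hN6, hK0, hL1, fun t ht x v => ?_⟩
  exact (hbar t ht x v).le.trans (mul_le_mul_of_nonneg_right (hMK t ht) (φs_pos _ _ _).le)

/-- **continuation criterion** -/
theorem critM (hd : 2 ≤ d) {γ : ℝ} (hγ : -(d : ℝ) < γ) (hγ0 : γ < 0)
    {T : ℝ} {f : ℝ → V d → V d → ℝ} (hT : 0 < T) (h : Kin T f)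
    (htouch : ∀ N : ℕ, (d : ℝ) + 6 ≤ 2 * N → ∃ C : ℝ, 0 ≤ C ∧ Touch C γ N T f)
    {r ν m : ℝ → ℝ} (hrc : ContinuousOn r (Ico 0 T)) (hνc : ContinuousOn ν (Ico 0 T))
    (hmc : ContinuousOn m (Ico 0 T)) (hmm : MonotoneOn m (Ico 0 T)) (hm1 : ∀ t ∈ Ico 0 T, 1 ≤ m t)
    (hr0 : ∀ t ∈ Ico 0 T, 0 ≤ r t) (hν0 : ∀ t ∈ Ico 0 T, 0 ≤ ν t)
    (hW : IntegrableOn (fun t => ν t + m t ^ γ * r t + m t ^ (γ + d)) (Ico 0 T))
    (hρ : ∀ t ∈ Ico 0 T, ∀ x, ∫ v, f t x v ≤ r t)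
    (hν : ∀ t ∈ Ico 0 T, ∀ x v, ∫⁻ w : V d, ENNReal.ofReal (f t x w * ‖w - v‖ ^ γ) ≤ ENNReal.ofReal (ν t))
    (N₀ : ℕ) : ∃ B : ℝ, 0 ≤ B ∧ ∀ t ∈ Ico 0 T, ∀ x v, f t x v ≤ B * φ N₀ v := by
  have hd2 : (2 : ℝ) ≤ d := by exact_mod_cast hd
  have hd0 : (0 : ℝ) < d := by linarith
  obtain ⟨N, K, L, hNN₀, hN6, hK, hL, hb⟩ := stepM hd hγ hγ0 hT h htouch hrc hνc hmc hmm hm1 hr0 hν0 hW hρ hν N₀
  obtain ⟨C, hC, htt⟩ := htouch N hN6
  obtain ⟨c, hc, hrate⟩ := rateS hd hγ hγ0 h hN6 hC htt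
  have hL0 : 0 < L := by linarith
  -- a good time
  obtain ⟨t₁, ht₁, hsm⟩ := exists_small hT hW (δ := c / ((K + 1) * L ^ (γ + d))) (by positivity)
  have hmt : 0 < m t₁ := by linarith [hm1 t₁ ht₁]
  have hTt : 0 < T - t₁ := by linarith [ht₁.2]
  have hrW : m t₁ ^ (γ + d) ≤ ν t₁ + m t₁ ^ γ * r t₁ + m t₁ ^ (γ + d) := by
    have g1 := hν0 t₁ ht₁
    have g2 := hr0 t₁ ht₁
    have : 0 ≤ m t₁ ^ γ * r t₁ := by positivity
    linarith
  set μ : ℝ := L * m t₁ with hμ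
  have hμ1 : 1 ≤ μ := one_le_mul_of_one_le_of_one_le hL (hm1 t₁ ht₁)
  have hμ0 : 0 < μ := by linarith
  have eμ : μ ^ (γ + d) = L ^ (γ + d) * m t₁ ^ (γ + d) := by
    rw [hμ, Real.mul_rpow hL0.le hmt.le]
  obtain ⟨B, hB, hBb⟩ := hrate t₁ ht₁ K μ hμ1 (hb t₁ ht₁) (by
    rw [eμ]
    have g1 : m t₁ ^ (γ + d) * (T - t₁) ≤ c / ((K + 1) * L ^ (γ + d)) :=
      (mul_le_mul_of_nonneg_right hrW hTt.le).trans hsm
    rw [le_div_iff₀ (by positivity)] at g1
    have g2 : 0 ≤ m t₁ ^ (γ + d) * (T - t₁) * L ^ (γ + d) := by positivity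
    nlinarith)
  obtain ⟨K2, hK2, hb2⟩ := h.decayφ ht₁ N₀
  refine ⟨max (B * μ ^ (2 * N)) K2, le_max_of_le_right hK2, fun t ht x v => ?_⟩
  rcases le_total t t₁ with g | g
  · exact (hb2 t ⟨ht.1, g⟩ x v).trans (mul_le_mul_of_nonneg_right (le_max_right _ _) (φ_pos _ v).le)
  · have g1 := hBb t ⟨g, ht.2⟩ x v
    have g2 := φs_scale N hμ1 one_pos v
    rw [mul_one, φs_one] at g2
    have g3 : φ N v ≤ φ N₀ v := by
      have := φs_anti hNN₀ one_pos v
      rwa [φs_one, φs_one] at this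
    have g4 : 0 ≤ μ ^ (2 * N) := by positivity
    calc f t x v ≤ B * φs N μ v := g1
      _ ≤ B * (μ ^ (2 * N) * φ N₀ v) := by gcongr; exact g2.trans (mul_le_mul_of_nonneg_left g3 g4)
      _ = B * μ ^ (2 * N) * φ N₀ v := by ring
      _ ≤ _ := mul_le_mul_of_nonneg_right (le_max_left _ _) (φ_pos _ v).le

end Pool.Agent.H43.KS
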