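import Pool.Agent.H43.KS.Crit

/-!
# Final forms of the continuation criterion
-/

set_option autoImplicit false

open MeasureTheory Metric Set Filter Topology
open scoped RealInnerProductSpace ENNReal

namespace Pool.Agent.H43.KS

open Pool.Agent.H821.BZ

variable {d : ℕ}

lemma φ_poly (q : ℕ) (v : V d) : φ q v ≤ 2 ^ q * ((1 + ‖v‖) ^ q)⁻¹ := by
  unfold φ
  have h0 := norm_nonneg v
  have h1 : (1 + ‖v‖) ≤ 2 * (1 + ‖v‖ ^ 2) := by nlinarith [sq_nonneg (‖v‖ - 1)]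
  have h2 : (1 + ‖v‖) ^ q ≤ 2 ^ q * (1 + ‖v‖ ^ 2) ^ q := by
    rw [← mul_pow]; exact pow_le_pow_left₀ (by positivity) h1 q
  have h3 : 0 < (1 + ‖v‖ ^ 2) ^ q := by positivity
  have h4 : 0 < (1 + ‖v‖) ^ q := by positivity
  rw [← div_eq_mul_inv, inv_eq_one_div, div_le_div_iff₀ h3 h4]
  linarith

/-- continuation criterion, positive majorants -/
theorem crit' (hd : 2 ≤ d) {γ : ℝ} (hγ : -(d : ℝ) < γ) (hγ0 : γ < 0)
    {T : ℝ} {f : ℝ → V d → V d → ℝ} (hT : 0 < T) (h : Kin T f)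
    (htouch : ∀ N : ℕ, (d : ℝ) + 6 ≤ 2 * N → ∃ C : ℝ, 0 ≤ C ∧ Touch C γ N T f)
    {r Φ : ℝ → ℝ} (hrc : ContinuousOn r (Ico 0 T)) (hΦc : ContinuousOn Φ (Ico 0 T))
    (hrm : MonotoneOn r (Ico 0 T)) (hΦm : MonotoneOn Φ (Ico 0 T)) (hr0 : 0 < r 0) (hΦ0 : 0 < Φ 0)
    (hW : IntegrableOn (fun t => r t ^ (1 + γ / d) * Φ t ^ (-γ / d)) (Ico 0 T))
    (hρF : ∀ t ∈ Ico 0 T, ∀ x, (∫ v, f t x v ≤ r t) ∧ ∀ v, f t x v ≤ Φ t)
    (q : ℕ) : ∃ B : ℝ, ∀ t ∈ Ico 0 T, ∀ x v, f t x v ≤ B * ((1 + ‖v‖) ^ q)⁻¹ := by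
  have hd2 : (2 : ℝ) ≤ d := by exact_mod_cast hd
  have hd0 : (0 : ℝ) < d := by linarith
  have h0T : (0 : ℝ) ∈ Ico 0 T := ⟨le_rfl, hT⟩
  have hrp : ∀ t ∈ Ico 0 T, r 0 ≤ r t := fun t ht => hrm h0T ht ht.1
  have hΦp : ∀ t ∈ Ico 0 T, Φ 0 ≤ Φ t := fun t ht => hΦm h0T ht ht.1
  have hθ : 0 < 1 + γ / d := by
    have : 1 + γ / d = (d + γ) / d := by field_simp
    rw [this]
    exact div_pos (by linarith) hd0
  have hθ' : 0 < -γ / d := div_pos (by linarith) hd0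
  obtain ⟨B, hB, hb⟩ := crit hd hγ hγ0 hT h htouch (r := fun t => r t + 1) (Φ := fun t => Φ t + 1)
    (hrc.add continuousOn_const) (hΦc.add continuousOn_const)
    (fun t ht t' ht' htt => by have := hrm ht ht' htt; simp only; linarith)
    (fun t ht => by have := hrp t ht; linarith) (fun t ht => by have := hΦp t ht; linarith)
    (by
      refine Integrable.mono' (hW.const_mul ((1 + 1 / r 0) ^ (1 + γ / d) * (1 + 1 / Φ 0) ^ (-γ / d))) ?_ ?_
      · refine ContinuousOn.aestronglyMeasurable ?_ measurableSet_Ico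
        refine ContinuousOn.mul ?_ ?_
        · exact (hrc.add continuousOn_const).rpow_const fun t ht => Or.inl (by
            have := hrp t ht; linarith : r t + 1 ≠ 0)
        · exact (hΦc.add continuousOn_const).rpow_const fun t ht => Or.inl (by
            have := hΦp t ht; linarith : Φ t + 1 ≠ 0)
      · refine (ae_restrict_iff' measurableSet_Ico).2 (Eventually.of_forall fun t ht => ?_)
        have g1 := hrp t ht
        have g2 := hΦp t ht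
        have g3 : 0 < r t := hr0.trans_le g1
        have g4 : 0 < Φ t := hΦ0.trans_le g2
        have g5 : r t + 1 ≤ (1 + 1 / r 0) * r t := by
          have : 1 ≤ 1 / r 0 * r t := by rw [one_div, ← div_eq_inv_mul, one_le_div hr0]; exact g1
          linarith
        have g6 : Φ t + 1 ≤ (1 + 1 / Φ 0) * Φ t := by
          have : 1 ≤ 1 / Φ 0 * Φ t := by rw [one_div, ← div_eq_inv_mul, one_le_div hΦ0]; exact g2
          linarith
        rw [Real.norm_eq_abs, abs_of_nonneg (by positivity)]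
        calc (r t + 1) ^ (1 + γ / d) * (Φ t + 1) ^ (-γ / d)
            ≤ ((1 + 1 / r 0) * r t) ^ (1 + γ / d) * ((1 + 1 / Φ 0) * Φ t) ^ (-γ / d) := by
              gcongr
          _ = _ := by
              rw [Real.mul_rpow (by positivity) g3.le, Real.mul_rpow (by positivity) g4.le]; ring)
    (fun t ht x => by have := (hρF t ht x).1; linarith)
    (fun t ht x v => by have := (hρF t ht x).2 v; linarith) q
  refine ⟨B * 2 ^ q, fun t ht x v => (hb t ht x v).trans ?_⟩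
  calc B * φ q v ≤ B * (2 ^ q * ((1 + ‖v‖) ^ q)⁻¹) := mul_le_mul_of_nonneg_left (φ_poly q v) hB
    _ = _ := by ring

/-- power rates -/
theorem power' (hd : 2 ≤ d) {γ : ℝ} (hγ : -(d : ℝ) < γ) (hγ0 : γ < 0)
    {T : ℝ} {f : ℝ → V d → V d → ℝ} (hT : 0 < T) (h : Kin T f)
    (htouch : ∀ N : ℕ, (d : ℝ) + 6 ≤ 2 * N → ∃ C : ℝ, 0 ≤ C ∧ Touch C γ N T f)
    {a m A : ℝ} (ha : 0 ≤ a) (hm : 0 ≤ m) (h1 : (1 + γ / d) * a + (-γ / d) * m < 1)
    (hρF : ∀ t ∈ Ico 0 T, ∀ x, (∫ v, f t x v ≤ A * (T - t) ^ (-a)) ∧ ∀ v, f t x v ≤ A * (T - t) ^ (-m))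
    (q : ℕ) : ∃ B : ℝ, ∀ t ∈ Ico 0 T, ∀ x v, f t x v ≤ B * ((1 + ‖v‖) ^ q)⁻¹ := by
  obtain ⟨B, hB, hb⟩ := main MOM Pool.Agent.H878.KS.BARR hd hγ hγ0 hT h htouch ha hm h1
    (fun t ht x => (hρF t ht x).1) (fun t ht x v => (hρF t ht x).2 v) q
  refine ⟨B * 2 ^ q, fun t ht x v => (hb t ht x v).trans ?_⟩
  calc B * φ q v ≤ B * (2 ^ q * ((1 + ‖v‖) ^ q)⁻¹) := mul_le_mul_of_nonneg_left (φ_poly q v) hB
    _ = _ := by ring

end Pool.Agent.H43.KS
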