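import Pool.Agent.H43.KS.CritM
import Pool.Agent.H43.KS.Fin

/-!
# Final form of the criterion with the collision frequency and a velocity scale
-/

set_option autoImplicit false

open MeasureTheory Metric Set Filter Topology
open scoped RealInnerProductSpace ENNReal

namespace Pool.Agent.H43.KS

open Pool.Agent.H821.BZ

variable {d : ℕ}

/-- the collision frequency is finite -/
lemma Kin.freq (hd : 2 ≤ d) {γ : ℝ} (hγ : -(d : ℝ) < γ) (hγ0 : γ < 0)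
    {T : ℝ} {f : ℝ → V d → V d → ℝ} (h : Kin T f) {t : ℝ} (ht : t ∈ Ico 0 T) (x v : V d) :
    ∫⁻ w : V d, ENNReal.ofReal (f t x w * ‖w - v‖ ^ γ) = ENNReal.ofReal (∫ w, f t x w * ‖v - w‖ ^ γ) := by
  obtain ⟨C, hC, hS⟩ := Pool.Agent.H134.KS.SOFTI d hd γ hγ hγ0
  obtain ⟨A, hA, hAb⟩ := h.decayφ ht 0
  have hm := h.measurable ht x
  have h0 := h.nonneg t ht x
  have hi := h.integrable ht x
  have h1 := hS (f t x) hm h0 hi ((∫ w, f t x w) + 1) (A + 1) (by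
      have : 0 ≤ ∫ w, f t x w := integral_nonneg h0
      linarith) (by linarith) (by linarith) (fun w => by
      have := hAb t ⟨ht.1, le_rfl⟩ x w
      unfold φ at this
      rw [pow_zero, inv_one, mul_one] at this
      linarith) v
  have hmm : Measurable (fun w : V d => f t x w * ‖w - v‖ ^ γ) := hm.mul (by fun_prop)
  have hnn : ∀ w, 0 ≤ f t x w * ‖w - v‖ ^ γ := fun w => mul_nonneg (h0 w) (by positivity)
  have hint : Integrable (fun w : V d => f t x w * ‖w - v‖ ^ γ) := by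
    refine ⟨hmm.aestronglyMeasurable, ?_⟩
    rw [hasFiniteIntegral_iff_ofReal (Eventually.of_forall hnn)]
    exact h1.trans_lt ENNReal.ofReal_lt_top
  have e : ∀ w : V d, f t x w * ‖v - w‖ ^ γ = f t x w * ‖w - v‖ ^ γ := fun w => by rw [norm_sub_rev]
  simp only [e]
  exact (ofReal_integral_eq_lintegral_ofReal hint (Eventually.of_forall hnn)).symm

/-- continuation criterion with the collision frequency and a velocity scale -/
theorem critM' (hd : 2 ≤ d) {γ : ℝ} (hγ : -(d : ℝ) < γ) (hγ0 : γ < 0)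
    {T : ℝ} {f : ℝ → V d → V d → ℝ} (hT : 0 < T) (h : Kin T f)
    (htouch : ∀ N : ℕ, (d : ℝ) + 6 ≤ 2 * N → ∃ C : ℝ, 0 ≤ C ∧ Touch C γ N T f)
    {r ν m : ℝ → ℝ} (hrc : ContinuousOn r (Ico 0 T)) (hνc : ContinuousOn ν (Ico 0 T))
    (hmc : ContinuousOn m (Ico 0 T)) (hmm : MonotoneOn m (Ico 0 T)) (hm1 : ∀ t ∈ Ico 0 T, 1 ≤ m t)
    (hW : IntegrableOn (fun t => ν t + m t ^ γ * r t + m t ^ (γ + d)) (Ico 0 T))
    (hρν : ∀ t ∈ Ico 0 T, ∀ x, (∫ v, f t x v ≤ r t) ∧ ∀ v, ∫ w, f t x w * ‖v - w‖ ^ γ ≤ ν t)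
    (q : ℕ) : ∃ B : ℝ, ∀ t ∈ Ico 0 T, ∀ x v, f t x v ≤ B * ((1 + ‖v‖) ^ q)⁻¹ := by
  have hν0 : ∀ t ∈ Ico 0 T, 0 ≤ ν t := fun t ht =>
    (integral_nonneg fun w => mul_nonneg (h.nonneg t ht 0 w) (by positivity)).trans ((hρν t ht 0).2 0)
  have hr0 : ∀ t ∈ Ico 0 T, 0 ≤ r t := fun t ht =>
    (integral_nonneg fun w => h.nonneg t ht 0 w).trans (hρν t ht 0).1
  obtain ⟨B, hB, hb⟩ := critM hd hγ hγ0 hT h htouch hrc hνc hmc hmm hm1 hr0 hν0 hW
    (fun t ht x => (hρν t ht x).1)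
    (fun t ht x v => by
      rw [h.freq hd hγ hγ0 ht x v]
      exact ENNReal.ofReal_le_ofReal ((hρν t ht x).2 v)) q
  refine ⟨B * 2 ^ q, fun t ht x v => (hb t ht x v).trans ?_⟩
  calc B * φ q v ≤ B * (2 ^ q * ((1 + ‖v‖) ^ q)⁻¹) := mul_le_mul_of_nonneg_left (φ_poly q v) hB
    _ = _ := by ring

end Pool.Agent.H43.KS
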