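import Pool.Agent.H43.KS.Stm
import Pool.Agent.H821.BZ.Main4

/-!
# One step: a weighted bound at a moving velocity scale
-/

set_option autoImplicit false

open MeasureTheory Metric Set Filter Topology
open scoped RealInnerProductSpace ENNReal

namespace Pool.Agent.H43.KS

open Pool.Agent.H821.BZ

variable {d : ℕ}

/-- nonnegative, periodic, continuous, rapidly decaying, differentiable in `(t,x)` -/
structure Kin (T : ℝ) (f : ℝ → V d → V d → ℝ) : Prop where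
  nonneg : ∀ t ∈ Ico 0 T, ∀ x v, 0 ≤ f t x v
  periodic : ∀ t ∈ Ico 0 T, ∀ (n : Fin d → ℤ) (x v : V d), f t (x + zv n) v = f t x v
  cont : ContinuousOn (fun p : ℝ × V d × V d => f p.1 p.2.1 p.2.2) (Ico 0 T ×ˢ univ)
  decay : ∀ t₂ ∈ Ico 0 T, ∀ q : ℕ, ∃ C, ∀ t ∈ Icc 0 t₂, ∀ x v : V d, f t x v ≤ C * ((1 + ‖v‖) ^ q)⁻¹
  diff : ∀ t ∈ Ioo 0 T, ∀ x v : V d, DifferentiableAt ℝ (fun p : ℝ × V d => f p.1 p.2 v) (t, x)

/-- the estimate at touching points, all scales `≥ 1` -/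
def Touch (C γ : ℝ) (N : ℕ) (T : ℝ) (f : ℝ → V d → V d → ℝ) : Prop :=
  ∀ t ∈ Ioo 0 T, ∀ (x v : V d) (m μ : ℝ), 1 ≤ μ → (∀ w, f t x w ≤ m * φs N μ w) →
      f t x v = m * φs N μ v →
      fderiv ℝ (fun p : ℝ × V d => f p.1 p.2 v) (t, x) (1, v) ≤
        C * f t x v * (momS γ γ 2 μ (f t x) v).toReal

section
variable {T : ℝ} {f : ℝ → V d → V d → ℝ}

lemma Kin.measurable (h : Kin T f) {t : ℝ} (ht : t ∈ Ico 0 T) (x : V d) : Measurable (f t x) := by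
  have h1 : Continuous (fun v : V d => f t x v) := by
    rw [← continuousOn_univ]
    exact h.cont.comp (f := fun v : V d => (t, x, v)) (s := univ)
      (continuous_const.prodMk (continuous_const.prodMk continuous_id)).continuousOn
      (fun v _ => ⟨ht, mem_univ _⟩)
  exact h1.measurable

lemma Kin.decayφ (h : Kin T f) {t₂ : ℝ} (ht : t₂ ∈ Ico 0 T) (N : ℕ) :
    ∃ C, 0 ≤ C ∧ ∀ t ∈ Icc 0 t₂, ∀ x v : V d, f t x v ≤ C * φ N v := by
  obtain ⟨C, hC⟩ := h.decay t₂ ht (2 * N)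
  refine ⟨|C|, abs_nonneg _, fun t ht x v => (hC t ht x v).trans ?_⟩
  calc C * ((1 + ‖v‖) ^ (2 * N))⁻¹ ≤ |C| * ((1 + ‖v‖) ^ (2 * N))⁻¹ :=
        mul_le_mul_of_nonneg_right (le_abs_self C) (by positivity)
    _ ≤ |C| * φ N v := mul_le_mul_of_nonneg_left (φ_lower N v) (abs_nonneg _)

lemma Kin.integrable (h : Kin T f) {t : ℝ} (ht : t ∈ Ico 0 T) (x : V d) : Integrable (f t x) := by
  have hn : (d:ℝ) < 2 * ((d + 1 : ℕ) : ℝ) := by push_cast; linarith [(by positivity : (0:ℝ) ≤ d)]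
  obtain ⟨m, hm, hmle⟩ := h.decayφ ht (d + 1)
  refine Integrable.mono' ((integrable_φ (d := d) hn).const_mul m)
    (h.measurable ht x).aestronglyMeasurable (Eventually.of_forall fun w => ?_)
  rw [Real.norm_eq_abs, abs_of_nonneg (h.nonneg t ht x w)]
  exact hmle t ⟨ht.1, le_rfl⟩ x w

end

lemma int_φs (n : ℕ) {μ : ℝ} (hμ : 0 < μ) : ∫ w : V d, φs n μ w = μ ^ d * ∫ w : V d, φ n w := by
  unfold φs
  rw [Measure.integral_comp_inv_smul]
  simp only [finrank_euclideanSpace, Fintype.card_fin, smul_eq_mul]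
  rw [abs_of_pos (by positivity)]

lemma integrable_φs {n : ℕ} (hn : (d:ℝ) < 2 * n) {μ : ℝ} (hμ : 0 < μ) : Integrable (φs (d := d) n μ) := by
  unfold φs
  exact (integrable_φ (d := d) hn).comp_smul (inv_ne_zero hμ.ne')

lemma φs_scale (N : ℕ) {L μ : ℝ} (hL : 1 ≤ L) (hμ : 0 < μ) (v : V d) :
    φs N (L * μ) v ≤ L ^ (2 * N) * φs N μ v := by
  have hL0 : 0 < L := by linarith
  rw [φs_eq N hμ, φs_eq N (by positivity), pow_mul, ← inv_pow, ← inv_pow, ← mul_pow]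
  refine pow_le_pow_left₀ (by positivity) ?_ N
  rw [inv_eq_one_div, inv_eq_one_div, mul_one_div, div_le_div_iff₀ (by positivity) (by positivity)]
  have e : L ^ 2 * (1 + ‖v‖ ^ 2 / (L * μ) ^ 2) = L ^ 2 + ‖v‖ ^ 2 / μ ^ 2 := by field_simp
  rw [e]
  have : 1 ≤ L ^ 2 := one_le_pow₀ hL
  linarith

lemma φs_anti {N₀ N : ℕ} (h : N₀ ≤ N) {μ : ℝ} (hμ : 0 < μ) (v : V d) : φs N μ v ≤ φs N₀ μ v := by
  rw [φs_eq N hμ, φs_eq N₀ hμ]
  have h1 : 1 ≤ 1 + ‖v‖ ^ 2 / μ ^ 2 := by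
    have : 0 ≤ ‖v‖ ^ 2 / μ ^ 2 := by positivity
    linarith
  gcongr

/-- the bound of the moments at the chosen scales (`y = T - t`) -/
lemma scales {γ a m C0 ε κ κ₃ K L y Cm : ℝ} {n N' : ℕ} (hγ : -(n : ℝ) < γ) (hC0 : 0 < C0)
    (hn0 : 0 < n) (hε : 0 ≤ ε) (hκγ : 2 * κ ≤ -γ)
    (hk1 : (1 + γ / n) * a + (-γ / n) * m ≤ κ₃) (hk2 : a + γ * ε + 2 * κ ≤ κ₃) (hk0 : 0 ≤ κ₃)
    (hN' : (n + γ) * (1 + ε) + 1 ≤ 2 * N' * κ)
    (hK : 0 ≤ K) (hL : 1 ≤ L) (hKL : K ≤ L) (hy : 0 < y) (hy1 : y ≤ 1) (hCm : 0 ≤ Cm) :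
    Cm * ((C0 * y ^ (-a)) ^ (1 + γ / n) * (C0 * y ^ (-m)) ^ (-γ / n)) +
      Cm * ((L * y ^ (-ε)) ^ γ * ((L ^ κ * y ^ (-κ)) ^ 2 * (C0 * y ^ (-a)) +
        K * (L * y ^ (-ε)) ^ n * ((L ^ κ * y ^ (-κ)) ^ (2 * N'))⁻¹)) ≤
      (Cm * C0 + Cm * (C0 + 1)) * y ^ (-κ₃) := by
  have hL0 : 0 < L := by linarith
  have hn : (0 : ℝ) < n := by exact_mod_cast hn0
  have hp1 : y ^ (-((1 + γ / n) * a + (-γ / n) * m)) ≤ y ^ (-κ₃) :=
    Real.rpow_le_rpow_of_exponent_ge hy hy1 (by linarith)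
  have hp2 : y ^ (-(a + γ * ε + 2 * κ)) ≤ y ^ (-κ₃) :=
    Real.rpow_le_rpow_of_exponent_ge hy hy1 (by linarith)
  have hp3 : 1 ≤ y ^ (-κ₃) := Real.one_le_rpow_of_pos_of_le_one_of_nonpos hy hy1 (by linarith)
  -- first term
  have e1 : (C0 * y ^ (-a)) ^ (1 + γ / n) * (C0 * y ^ (-m)) ^ (-γ / n) =
      C0 * y ^ (-((1 + γ / n) * a + (-γ / n) * m)) := by
    rw [Real.mul_rpow hC0.le (by positivity), Real.mul_rpow hC0.le (by positivity),
      ← Real.rpow_mul hy.le, ← Real.rpow_mul hy.le]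
    calc C0 ^ (1 + γ / n) * y ^ (-a * (1 + γ / n)) * (C0 ^ (-γ / n) * y ^ (-m * (-γ / n)))
        = (C0 ^ (1 + γ / n) * C0 ^ (-γ / n)) * (y ^ (-a * (1 + γ / n)) * y ^ (-m * (-γ / n))) := by ring
      _ = C0 ^ (1:ℝ) * y ^ (-((1 + γ / n) * a + (-γ / n) * m)) := by
          rw [← Real.rpow_add hC0, ← Real.rpow_add hy]
          congr 2 <;> ring
      _ = _ := by rw [Real.rpow_one]
  -- second term
  have e2 : (L * y ^ (-ε)) ^ γ * ((L ^ κ * y ^ (-κ)) ^ 2 * (C0 * y ^ (-a))) =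
      C0 * (L ^ (γ + 2 * κ) * y ^ (-(a + γ * ε + 2 * κ))) := by
    rw [Real.mul_rpow hL0.le (by positivity), ← Real.rpow_mul hy.le, mul_pow,
      ← Real.rpow_natCast (L ^ κ) 2, ← Real.rpow_natCast (y ^ (-κ)) 2, ← Real.rpow_mul hL0.le,
      ← Real.rpow_mul hy.le]
    calc L ^ γ * y ^ (-ε * γ) * (L ^ (κ * ((2:ℕ):ℝ)) * y ^ (-κ * ((2:ℕ):ℝ)) * (C0 * y ^ (-a)))
        = C0 * ((L ^ γ * L ^ (κ * ((2:ℕ):ℝ))) * (y ^ (-ε * γ) * y ^ (-κ * ((2:ℕ):ℝ)) * y ^ (-a))) := by ring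
      _ = _ := by
          rw [← Real.rpow_add hL0, ← Real.rpow_add hy, ← Real.rpow_add hy]
          push_cast
          congr 3 <;> ring
  have b2 : L ^ (γ + 2 * κ) ≤ 1 := Real.rpow_le_one_of_one_le_of_nonpos hL (by linarith)
  -- third term
  have e3 : (L * y ^ (-ε)) ^ γ * (K * (L * y ^ (-ε)) ^ n * ((L ^ κ * y ^ (-κ)) ^ (2 * N'))⁻¹) =
      K * (L ^ (γ + n - 2 * N' * κ) * y ^ (-(ε * (γ + n)) + 2 * N' * κ)) := by
    have h1 : ((L ^ κ * y ^ (-κ)) ^ (2 * N'))⁻¹ = L ^ (-(2 * N' * κ)) * y ^ (2 * N' * κ) := by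
      rw [mul_pow, ← Real.rpow_natCast (L ^ κ), ← Real.rpow_natCast (y ^ (-κ)), ← Real.rpow_mul hL0.le,
        ← Real.rpow_mul hy.le, mul_inv, ← Real.rpow_neg hL0.le, ← Real.rpow_neg hy.le]
      push_cast
      congr 2 <;> ring
    have h2 : (L * y ^ (-ε)) ^ γ * (L * y ^ (-ε)) ^ n = L ^ (γ + n) * y ^ (-(ε * (γ + n))) := by
      rw [← Real.rpow_natCast (L * y ^ (-ε)) n, ← Real.rpow_add (by positivity),
        Real.mul_rpow hL0.le (by positivity), ← Real.rpow_mul hy.le]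
      congr 2; ring
    calc (L * y ^ (-ε)) ^ γ * (K * (L * y ^ (-ε)) ^ n * ((L ^ κ * y ^ (-κ)) ^ (2 * N'))⁻¹)
        = K * (((L * y ^ (-ε)) ^ γ * (L * y ^ (-ε)) ^ n) * ((L ^ κ * y ^ (-κ)) ^ (2 * N'))⁻¹) := by ring
      _ = K * ((L ^ (γ + n) * L ^ (-(2 * N' * κ))) * (y ^ (-(ε * (γ + n))) * y ^ (2 * N' * κ))) := by
          rw [h1, h2]; ring
      _ = _ := by
          rw [← Real.rpow_add hL0, ← Real.rpow_add hy]
          congr 3
  have hng : 0 < n + γ := by linarith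
  have b3 : K * (L ^ (γ + n - 2 * N' * κ) * y ^ (-(ε * (γ + n)) + 2 * N' * κ)) ≤ 1 := by
    have g1 : L ^ (γ + n - 2 * N' * κ) ≤ L ^ (-1 : ℝ) := by
      refine Real.rpow_le_rpow_of_exponent_le hL ?_
      nlinarith [mul_nonneg hng.le hε]
    have g2 : y ^ (-(ε * (γ + n)) + 2 * N' * κ) ≤ 1 := by
      refine Real.rpow_le_one hy.le hy1 ?_
      nlinarith [mul_nonneg hng.le hε]
    rw [Real.rpow_neg_one] at g1
    calc K * (L ^ (γ + n - 2 * N' * κ) * y ^ (-(ε * (γ + n)) + 2 * N' * κ)) ≤ K * (L⁻¹ * 1) := by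
          gcongr
      _ = K / L := by ring
      _ ≤ 1 := (div_le_one hL0).2 hKL
  rw [e1, mul_add ((L * y ^ (-ε)) ^ γ), e2, e3]
  have t1 : Cm * (C0 * y ^ (-((1 + γ / n) * a + (-γ / n) * m))) ≤ Cm * (C0 * y ^ (-κ₃)) := by gcongr
  have t2 : C0 * (L ^ (γ + 2 * κ) * y ^ (-(a + γ * ε + 2 * κ))) ≤ C0 * (1 * y ^ (-κ₃)) := by gcongr
  have t3 : Cm * (C0 * (L ^ (γ + 2 * κ) * y ^ (-(a + γ * ε + 2 * κ))) +
      K * (L ^ (γ + n - 2 * N' * κ) * y ^ (-(ε * (γ + n)) + 2 * N' * κ))) ≤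
      Cm * (C0 * (1 * y ^ (-κ₃)) + y ^ (-κ₃)) := by
    refine mul_le_mul_of_nonneg_left ?_ hCm
    linarith
  calc _ ≤ Cm * (C0 * y ^ (-κ₃)) + Cm * (C0 * (1 * y ^ (-κ₃)) + y ^ (-κ₃)) := add_le_add t1 t3
    _ = _ := by ring

/-- **one step**: mass `≤ C₀ (T-t)^(-a)` and supremum `≤ C₀ (T-t)^(-m)` with integrable collision
frequency give weighted bounds at the scale `(T-t)^(-ε)`, `a + γ ε < 1` -/
theorem step (hMOM : S_MOMT) (hBAR : S_BARR) (hd : 2 ≤ d) {γ : ℝ} (hγ : -(d : ℝ) < γ) (hγ0 : γ < 0)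
    {T : ℝ} {f : ℝ → V d → V d → ℝ} (h : Kin T f)
    (htouch : ∀ N : ℕ, (d : ℝ) + 6 ≤ 2 * N → ∃ C : ℝ, 0 ≤ C ∧ Touch C γ N T f)
    {t₁ : ℝ} (ht₁ : t₁ ∈ Ico 0 T) (hT1 : T - t₁ ≤ 1) {a m C0 ε : ℝ} (hC0 : 0 < C0) (hε : 0 ≤ ε)
    (h1 : (1 + γ / d) * a + (-γ / d) * m < 1) (h2 : a + γ * ε < 1)
    (hρ : ∀ t ∈ Ico t₁ T, ∀ x, ∫ v, f t x v ≤ C0 * (T - t) ^ (-a))
    (hF : ∀ t ∈ Ico t₁ T, ∀ x v, f t x v ≤ C0 * (T - t) ^ (-m)) (N₀ : ℕ) :
    ∃ K' : ℝ, 0 ≤ K' ∧ ∀ t ∈ Ico t₁ T, ∀ x v, f t x v ≤ K' * φs N₀ ((T - t) ^ (-ε)) v := by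
  have hd2 : (2 : ℝ) ≤ d := by exact_mod_cast hd
  have hd0 : 0 < d := by omega
  have hdγ : 0 < (d : ℝ) + γ := by linarith
  -- exponents
  set κ : ℝ := min ((1 - (a + γ * ε)) / 4) (-γ / 2) with hκ
  have hκ0 : 0 < κ := lt_min (by linarith) (by linarith)
  have hκ1 : κ ≤ (1 - (a + γ * ε)) / 4 := min_le_left _ _
  have hκ2 : κ ≤ -γ / 2 := min_le_right _ _
  obtain ⟨k, hk⟩ := exists_nat_ge ((((d : ℝ) + γ) * (1 + ε) + 1) / (2 * κ))
  rw [div_le_iff₀ (by positivity)] at hk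
  set N' : ℕ := k + N₀ + 6 with hN'
  have hN'κ : ((d : ℝ) + γ) * (1 + ε) + 1 ≤ 2 * N' * κ := by
    have : (k : ℝ) ≤ N' := by rw [hN']; push_cast; linarith [(by positivity : (0:ℝ) ≤ N₀)]
    nlinarith
  set N : ℕ := d + 1 + 1 + N' with hN
  have hN6 : (d : ℝ) + 6 ≤ 2 * N := by
    rw [hN, hN']; push_cast
    linarith [(by positivity : (0:ℝ) ≤ N₀), (by positivity : (0:ℝ) ≤ k)]
  have hNN₀ : N₀ ≤ N := by omega
  obtain ⟨C, hC, htt⟩ := htouch N hN6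
  obtain ⟨Cm, hCm, hmom⟩ := hMOM d hd γ hγ hγ0 (d + 1) (by push_cast; linarith)
  obtain ⟨A, hA, hAb⟩ := h.decayφ ht₁ N
  set κ₃ : ℝ := max (max ((1 + γ / d) * a + (-γ / d) * m) (a + γ * ε + 2 * κ)) 0 with hκ₃
  have hκ₃0 : 0 ≤ κ₃ := le_max_right _ _
  have hκ₃1 : κ₃ < 1 := max_lt (max_lt h1 (by linarith)) one_pos
  have hκ₃a : (1 + γ / d) * a + (-γ / d) * m ≤ κ₃ := (le_max_left _ _).trans (le_max_left _ _)
  have hκ₃b : a + γ * ε + 2 * κ ≤ κ₃ := (le_max_right _ _).trans (le_max_left _ _)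
  set C3 : ℝ := Cm * C0 + Cm * (C0 + 1) + 1 with hC3
  have hC30 : 0 < C3 := by positivity
  have h1κ : 0 < 1 - κ₃ := by linarith
  set J : ℝ → ℝ := fun t => C3 / (1 - κ₃) * ((T - t₁) ^ (1 - κ₃) - (T - t) ^ (1 - κ₃)) with hJ
  set M : ℝ → ℝ := fun t => (A + 1) * Real.exp ((C + 1) * J t) with hM
  set M' : ℝ → ℝ := fun t => M t * ((C + 1) * (C3 * (T - t) ^ (-κ₃))) with hM'
  set K : ℝ := (A + 1) * Real.exp ((C + 1) * (C3 / (1 - κ₃) * (T - t₁) ^ (1 - κ₃))) with hK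
  have hK0 : 0 ≤ K := by positivity
  set L : ℝ := max 1 K with hL
  have hL1 : 1 ≤ L := le_max_left _ _
  have hKL : K ≤ L := le_max_right _ _
  have hL0 : 0 < L := by linarith
  set μ : ℝ → ℝ := fun t => L * (T - t) ^ (-ε) with hμ
  have hpos : ∀ t ∈ Ico t₁ T, 0 < T - t := fun t ht => by linarith [ht.2]
  have hle1 : ∀ t ∈ Ico t₁ T, T - t ≤ 1 := fun t ht => by linarith [ht.1]
  have hs1 : ∀ t ∈ Ico t₁ T, 1 ≤ (T - t) ^ (-ε) := fun t ht =>
    Real.one_le_rpow_of_pos_of_le_one_of_nonpos (hpos t ht) (hle1 t ht) (by linarith)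
  have hμ1 : ∀ t ∈ Ico t₁ T, 1 ≤ μ t := fun t ht => by
    have := hs1 t ht
    simp only [hμ]
    exact one_le_mul_of_one_le_of_one_le hL1 this
  have hMpos : ∀ t, 0 < M t := fun t => by rw [hM]; positivity
  have hJc : ContinuousOn J (Ico t₁ T) := by
    rw [hJ]
    refine ContinuousOn.mul continuousOn_const (ContinuousOn.sub continuousOn_const ?_)
    exact ContinuousOn.rpow_const (by fun_prop) fun t ht => Or.inl (hpos t ht).ne'
  have hJm : MonotoneOn J (Ico t₁ T) := by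
    intro t ht t' ht' htt'
    simp only [hJ]
    refine mul_le_mul_of_nonneg_left ?_ (by positivity)
    have := Real.rpow_le_rpow (hpos t' ht').le (by linarith : T - t' ≤ T - t) h1κ.le
    linarith
  have hMK : ∀ t ∈ Ico t₁ T, M t ≤ K := fun t ht => by
    rw [hM, hK]
    simp only [hJ]
    have h0 : 0 ≤ (T - t) ^ (1 - κ₃) := Real.rpow_nonneg (hpos t ht).le _
    have h5 : 0 ≤ C3 / (1 - κ₃) := by positivity
    gcongr
    linarith
  have hMd : ∀ t ∈ Ioo t₁ T, HasDerivAt M (M' t) t := by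
    intro t ht
    have hy : 0 < T - t := by linarith [ht.2]
    have g1 : HasDerivAt (fun t : ℝ => T - t) (-1) t := (hasDerivAt_id t).const_sub T
    have g2 : HasDerivAt (fun t : ℝ => (T - t) ^ (1 - κ₃)) ((-1) * (1 - κ₃) * (T - t) ^ (1 - κ₃ - 1)) t :=
      g1.rpow_const (Or.inl hy.ne')
    have g3 : HasDerivAt J (C3 / (1 - κ₃) * (-((-1) * (1 - κ₃) * (T - t) ^ (1 - κ₃ - 1)))) t :=
      (g2.const_sub _).const_mul _
    have g4 : C3 / (1 - κ₃) * (-((-1) * (1 - κ₃) * (T - t) ^ (1 - κ₃ - 1))) = C3 * (T - t) ^ (-κ₃) := by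
      rw [show 1 - κ₃ - 1 = -κ₃ by ring]
      field_simp
    rw [g4] at g3
    have g5 := ((g3.const_mul (C + 1)).exp).const_mul (A + 1)
    refine g5.congr_deriv ?_
    simp only [hM', hM]
    ring
  have hbar := hBAR d T t₁ f N M M' μ h.periodic h.cont h.decay h.diff ht₁
    (by
      rw [hμ]
      exact ContinuousOn.mul continuousOn_const
        (ContinuousOn.rpow_const (by fun_prop) fun t ht => Or.inl (hpos t ht).ne'))
    (by
      intro t ht t' ht' htt'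
      simp only [hμ]
      exact mul_le_mul_of_nonneg_left
        (Real.rpow_le_rpow_of_nonpos (hpos t' ht') (by linarith) (by linarith)) hL0.le)
    hμ1
    (by
      rw [hM]
      exact ContinuousOn.mul continuousOn_const (Real.continuous_exp.comp_continuousOn (hJc.const_mul _)))
    (by
      intro t ht t' ht' htt'
      simp only [hM]
      have := hJm ht ht' htt'
      gcongr)
    (hMpos t₁) hMd
    (by
      intro x v
      have e0 : M t₁ = A + 1 := by simp only [hM, hJ, sub_self, mul_zero, Real.exp_zero, mul_one]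
      rw [e0]
      have g1 := hAb t₁ ⟨ht₁.1, le_rfl⟩ x v
      have g2 : φ N v ≤ φs N (μ t₁) v := by
        rw [← φs_one]
        exact φs_mono N one_pos (hμ1 t₁ ⟨le_rfl, ht₁.2⟩) v
      have g3 := φs_pos N (μ t₁) v
      nlinarith [mul_le_mul_of_nonneg_left g2 hA])
    (by
      intro t ht x v hle hv
      have htI : t ∈ Ico t₁ T := ⟨ht.1.le, ht.2⟩
      have ht0 : t ∈ Ioo 0 T := ⟨ht₁.1.trans_lt ht.1, ht.2⟩
      have ht0' : t ∈ Ico 0 T := ⟨ht0.1.le, ht0.2⟩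
      have hy := hpos t htI
      have hy1 := hle1 t htI
      have hD := htt t ht0 x v (M t) (μ t) (hμ1 t htI) hle hv
      have hleK : ∀ w, f t x w ≤ K * φs (d + 1 + 1 + N') (μ t) w := fun w =>
        (hle w).trans (mul_le_mul_of_nonneg_right (hMK t htI) (φs_pos _ _ _).le)
      have hR : 1 ≤ L ^ κ * (T - t) ^ (-κ) := by
        have g1 : 1 ≤ L ^ κ := Real.one_le_rpow hL1 hκ0.le
        have g2 : 1 ≤ (T - t) ^ (-κ) :=
          Real.one_le_rpow_of_pos_of_le_one_of_nonpos hy hy1 (by linarith)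
        exact one_le_mul_of_one_le_of_one_le g1 g2
      have hq := hmom N' (f t x) (h.measurable ht0' x) (h.nonneg t ht0' x) (h.integrable ht0' x)
        (C0 * (T - t) ^ (-a)) (C0 * (T - t) ^ (-m)) (by positivity) (by positivity) (hρ t htI x)
        (hF t htI x) K (μ t) (L ^ κ * (T - t) ^ (-κ)) hK0 (by positivity) hR hleK v
      have hsc := scales (a := a) (m := m) (κ := κ) (κ₃ := κ₃) (K := K) (L := L) (Cm := Cm) (N' := N')
        hγ hC0 hd0 hε (by linarith) hκ₃a hκ₃b hκ₃0 hN'κ hK0 hL1 hKL hy hy1 hCm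
      have hq2 : (momS γ γ 2 (μ t) (f t x) v).toReal ≤ (Cm * C0 + Cm * (C0 + 1)) * (T - t) ^ (-κ₃) :=
        ENNReal.toReal_le_of_le_ofReal (by positivity) (hq.trans (ENNReal.ofReal_le_ofReal hsc))
      have hyk : 0 < (T - t) ^ (-κ₃) := by positivity
      have hq3 : (momS γ γ 2 (μ t) (f t x) v).toReal ≤ C3 * (T - t) ^ (-κ₃) :=
        hq2.trans (mul_le_mul_of_nonneg_right (by rw [hC3]; linarith) hyk.le)
      have hφ := φs_pos N (μ t) v
      have hMt := hMpos t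
      refine hD.trans_lt ?_
      rw [hv]
      have g1 : C * (M t * φs N (μ t) v) * (momS γ γ 2 (μ t) (f t x) v).toReal ≤
          C * (M t * φs N (μ t) v) * (C3 * (T - t) ^ (-κ₃)) :=
        mul_le_mul_of_nonneg_left hq3 (by positivity)
      refine g1.trans_lt ?_
      simp only [hM']
      have g2 : 0 < M t * φs N (μ t) v * (C3 * (T - t) ^ (-κ₃)) := by positivity
      have g3 : M t * ((C + 1) * (C3 * (T - t) ^ (-κ₃))) * φs N (μ t) v =
          C * (M t * φs N (μ t) v) * (C3 * (T - t) ^ (-κ₃)) +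
            M t * φs N (μ t) v * (C3 * (T - t) ^ (-κ₃)) := by ring
      rw [g3]
      linarith)
  refine ⟨K * L ^ (2 * N), by positivity, fun t ht x v => ?_⟩
  have hst : 0 < (T - t) ^ (-ε) := lt_of_lt_of_le one_pos (hs1 t ht)
  calc f t x v ≤ M t * φs N (μ t) v := (hbar t ht x v).le
    _ ≤ K * φs N (μ t) v := mul_le_mul_of_nonneg_right (hMK t ht) (φs_pos _ _ _).le
    _ ≤ K * (L ^ (2 * N) * φs N ((T - t) ^ (-ε)) v) :=
        mul_le_mul_of_nonneg_left (φs_scale N hL1 hst v) hK0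
    _ ≤ K * (L ^ (2 * N) * φs N₀ ((T - t) ^ (-ε)) v) := by
        have := φs_anti hNN₀ hst v
        gcongr
    _ = _ := by ring

/-- **iteration**: bounded solutions, mass at a rate below `d/(d+γ)` -/
theorem iter (hMOM : S_MOMT) (hBAR : S_BARR) (hd : 2 ≤ d) {γ : ℝ} (hγ : -(d : ℝ) < γ) (hγ0 : γ < 0)
    {T : ℝ} {f : ℝ → V d → V d → ℝ} (h : Kin T f)
    (htouch : ∀ N : ℕ, (d : ℝ) + 6 ≤ 2 * N → ∃ C : ℝ, 0 ≤ C ∧ Touch C γ N T f)
    {t₁ : ℝ} (ht₁ : t₁ ∈ Ico 0 T) (hT1 : T - t₁ ≤ 1) {F : ℝ}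
    (hF : ∀ t ∈ Ico t₁ T, ∀ x v, f t x v ≤ F) {a₀ η : ℝ} (ha₀ : (1 + γ / d) * a₀ < 1) (hη : 0 < η)
    (hηa : 2 * η = (d / (-γ) - 1) * (d / (d + γ) - a₀)) :
    ∀ k : ℕ, ∀ a : ℝ, a ≤ a₀ → a - k * η < 1 → ∀ C0 : ℝ, 0 < C0 →
      (∀ t ∈ Ico t₁ T, ∀ x, ∫ v, f t x v ≤ C0 * (T - t) ^ (-a)) →
      ∀ N₀ : ℕ, ∃ K' : ℝ, 0 ≤ K' ∧ ∀ t ∈ Ico t₁ T, ∀ x v, f t x v ≤ K' * φ N₀ v := by
  have hd2 : (2 : ℝ) ≤ d := by exact_mod_cast hd
  have hdγ : 0 < (d : ℝ) + γ := by linarith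
  have hd0 : (0 : ℝ) < d := by linarith
  have hpos : ∀ t ∈ Ico t₁ T, 0 < T - t := fun t ht => by linarith [ht.2]
  have hle1 : ∀ t ∈ Ico t₁ T, T - t ≤ 1 := fun t ht => by linarith [ht.1]
  have hθ : 0 < 1 + γ / d := by
    have : 1 + γ / d = (d + γ) / d := by field_simp
    rw [this]; positivity
  have hbase : ∀ a : ℝ, a ≤ a₀ → a < 1 → ∀ C0 : ℝ, 0 < C0 →
      (∀ t ∈ Ico t₁ T, ∀ x, ∫ v, f t x v ≤ C0 * (T - t) ^ (-a)) →
      ∀ N₀ : ℕ, ∃ K' : ℝ, 0 ≤ K' ∧ ∀ t ∈ Ico t₁ T, ∀ x v, f t x v ≤ K' * φ N₀ v := by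
    intro a haa ha1 C0 hC0 hρ N₀
    obtain ⟨K', hK', hb⟩ := step hMOM hBAR hd hγ hγ0 h htouch ht₁ hT1 (a := a) (m := 0)
      (C0 := max C0 F) (ε := 0) (lt_max_of_lt_left hC0) le_rfl
      (by have := mul_le_mul_of_nonneg_left haa hθ.le; linarith) (by linarith)
      (fun t ht x => (hρ t ht x).trans (mul_le_mul_of_nonneg_right (le_max_left _ _)
        (Real.rpow_nonneg (hpos t ht).le _)))
      (fun t ht x v => by
        rw [neg_zero, Real.rpow_zero, mul_one]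
        exact (hF t ht x v).trans (le_max_right _ _)) N₀
    refine ⟨K', hK', fun t ht x v => (hb t ht x v).trans (le_of_eq ?_)⟩
    rw [neg_zero, Real.rpow_zero, φs_one]
  intro k
  induction k with
  | zero =>
    intro a haa ha1
    refine hbase a haa ?_
    simpa using ha1
  | succ k ih =>
    intro a haa hak C0 hC0 hρ N₀
    rcases lt_or_ge a 1 with ha1 | ha1
    · exact hbase a haa ha1 C0 hC0 hρ N₀
    -- `ε = (a-1)/(-γ) + η/d`
    set ε : ℝ := (a - 1) / (-γ) + η / d with hε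
    have hnγ : 0 < -γ := by linarith
    have hγne : γ ≠ 0 := hγ0.ne
    have hε0 : 0 ≤ ε := by
      have : 0 ≤ a - 1 := by linarith
      positivity
    have hεγ : a + γ * ε < 1 := by
      have e1 : γ * ((a - 1) / (-γ)) = -(a - 1) := by
        field_simp
      have e2 : γ * (η / d) < 0 := mul_neg_of_neg_of_pos hγ0 (by positivity)
      rw [hε, mul_add, e1]; linarith
    obtain ⟨K', hK', hb⟩ := step hMOM hBAR hd hγ hγ0 h htouch ht₁ hT1 (a := a) (m := 0)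
      (C0 := max C0 F) (ε := ε) (lt_max_of_lt_left hC0) hε0
      (by have := mul_le_mul_of_nonneg_left haa hθ.le; linarith) hεγ
      (fun t ht x => (hρ t ht x).trans (mul_le_mul_of_nonneg_right (le_max_left _ _)
        (Real.rpow_nonneg (hpos t ht).le _)))
      (fun t ht x v => by
        rw [neg_zero, Real.rpow_zero, mul_one]
        exact (hF t ht x v).trans (le_max_right _ _)) (d + 1)
    have hn : (d:ℝ) < 2 * ((d + 1 : ℕ) : ℝ) := by push_cast; linarith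
    set I : ℝ := ∫ w : V d, φ (d + 1) w with hI
    have hI0 : 0 ≤ I := integral_nonneg fun w => (φ_pos _ w).le
    -- the new exponent of the mass
    have hda : d * ε ≤ a - η := by
      have e1 : d * ε = d * ((a - 1) / (-γ)) + η := by rw [hε]; field_simp
      have e2 : d * ((a - 1) / (-γ)) = a - (d / (-γ) - 1) * (d / (d + γ) - a) := by
        field_simp
        ring
      have e3 : (d / (-γ) - 1) * (d / (d + γ) - a₀) ≤ (d / (-γ) - 1) * (d / (d + γ) - a) := by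
        refine mul_le_mul_of_nonneg_left (by linarith) ?_
        have : 1 ≤ d / (-γ) := by rw [le_div_iff₀ hnγ]; linarith
        linarith
      rw [e1, e2]; linarith
    refine ih (a - η) (by linarith) (by push_cast at hak ⊢; linarith) (K' * I + 1) (by positivity) ?_ N₀
    intro t ht x
    have hy := hpos t ht
    have hst : 0 < (T - t) ^ (-ε) := by positivity
    have g1 : ∫ v, f t x v ≤ ∫ v : V d, K' * φs (d + 1) ((T - t) ^ (-ε)) v := by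
      have ht0 : t ∈ Ico 0 T := ⟨ht₁.1.trans ht.1, ht.2⟩
      exact integral_mono (h.integrable ht0 x) ((integrable_φs hn hst).const_mul K') (fun v => hb t ht x v)
    rw [integral_const_mul, int_φs _ hst, ← hI] at g1
    have g2 : ((T - t) ^ (-ε)) ^ d = (T - t) ^ (-(d * ε)) := by
      rw [← Real.rpow_natCast, ← Real.rpow_mul hy.le]; congr 1; ring
    have g3 : (T - t) ^ (-(d * ε)) ≤ (T - t) ^ (-(a - η)) :=
      Real.rpow_le_rpow_of_exponent_ge hy (hle1 t ht) (by linarith)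
    rw [g2] at g1
    have g4 : 0 ≤ (T - t) ^ (-(a - η)) := by positivity
    calc ∫ v, f t x v ≤ K' * ((T - t) ^ (-(d * ε)) * I) := g1
      _ ≤ K' * ((T - t) ^ (-(a - η)) * I) := by gcongr
      _ = (K' * I) * (T - t) ^ (-(a - η)) := by ring
      _ ≤ (K' * I + 1) * (T - t) ^ (-(a - η)) := mul_le_mul_of_nonneg_right (by linarith) g4

/-- **main theorem**: integrable collision frequency, no hypothesis on the energy -/
theorem main (hMOM : S_MOMT) (hBAR : S_BARR) (hd : 2 ≤ d) {γ : ℝ} (hγ : -(d : ℝ) < γ) (hγ0 : γ < 0)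
    {T : ℝ} {f : ℝ → V d → V d → ℝ} (hT : 0 < T) (h : Kin T f)
    (htouch : ∀ N : ℕ, (d : ℝ) + 6 ≤ 2 * N → ∃ C : ℝ, 0 ≤ C ∧ Touch C γ N T f)
    {a m A : ℝ} (ha : 0 ≤ a) (hm : 0 ≤ m) (h1 : (1 + γ / d) * a + (-γ / d) * m < 1)
    (hρ : ∀ t ∈ Ico 0 T, ∀ x, ∫ v, f t x v ≤ A * (T - t) ^ (-a))
    (hF : ∀ t ∈ Ico 0 T, ∀ x v, f t x v ≤ A * (T - t) ^ (-m)) (N₀ : ℕ) :
    ∃ K' : ℝ, 0 ≤ K' ∧ ∀ t ∈ Ico 0 T, ∀ x v, f t x v ≤ K' * φ N₀ v := by
  have hd2 : (2 : ℝ) ≤ d := by exact_mod_cast hd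
  have hdγ : 0 < (d : ℝ) + γ := by linarith
  have hd0 : (0 : ℝ) < d := by linarith
  have hnγ : 0 < -γ := by linarith
  have hγne : γ ≠ 0 := hγ0.ne
  set t₁ := max 0 (T - 1) with ht₁def
  have ht₁ : t₁ ∈ Ico 0 T := ⟨le_max_left _ _, max_lt hT (by linarith)⟩
  have hT1 : T - t₁ ≤ 1 := by have := le_max_right 0 (T - 1); rw [← ht₁def] at this; linarith
  have hsub : ∀ t ∈ Ico t₁ T, t ∈ Ico 0 T := fun t ht => ⟨ht₁.1.trans ht.1, ht.2⟩
  have hpos : ∀ t ∈ Ico t₁ T, 0 < T - t := fun t ht => by linarith [ht.2]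
  set C0 := |A| + 1 with hC0
  have hC00 : 0 < C0 := by positivity
  have hAC : A ≤ C0 := by have := le_abs_self A; rw [hC0]; linarith
  have hρ' : ∀ t ∈ Ico t₁ T, ∀ x, ∫ v, f t x v ≤ C0 * (T - t) ^ (-a) := fun t ht x =>
    (hρ t (hsub t ht) x).trans (mul_le_mul_of_nonneg_right hAC (Real.rpow_nonneg (hpos t ht).le _))
  have hF' : ∀ t ∈ Ico t₁ T, ∀ x v, f t x v ≤ C0 * (T - t) ^ (-m) := fun t ht x v =>
    (hF t (hsub t ht) x v).trans (mul_le_mul_of_nonneg_right hAC (Real.rpow_nonneg (hpos t ht).le _))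
  -- first step: `f` is bounded
  obtain ⟨F, hF0, hFb⟩ := step hMOM hBAR hd hγ hγ0 h htouch ht₁ hT1 (a := a) (m := m)
    (ε := a / (-γ)) hC00 (by positivity) h1
    (by have : γ * (a / (-γ)) = -a := by field_simp
        rw [this]; linarith) hρ' hF' 0
  have hFb' : ∀ t ∈ Ico t₁ T, ∀ x v, f t x v ≤ F := fun t ht x v => by
    have := hFb t ht x v
    rwa [φs_eq 0 (by have := hpos t ht; positivity), pow_zero, inv_one, mul_one] at this
  -- iteration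
  have hθa : (1 + γ / d) * a < 1 := by
    have : 0 ≤ (-γ / d) * m := by positivity
    linarith
  have hastar : a < d / (d + γ) := by
    rw [lt_div_iff₀ hdγ]
    have e : (1 + γ / d) * a = a * (d + γ) / d := by field_simp
    rw [e, div_lt_one hd0] at hθa
    exact hθa
  have hdg : 1 < d / (-γ) := by rw [lt_div_iff₀ hnγ]; linarith
  set η : ℝ := (d / (-γ) - 1) * (d / (d + γ) - a) / 2 with hη
  have hη0 : 0 < η := by
    have g1 : 0 < d / (-γ) - 1 := by linarith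
    have g2 : 0 < d / (d + γ) - a := by linarith
    positivity
  obtain ⟨k, hk⟩ := exists_nat_gt ((a - 1) / η)
  rw [div_lt_iff₀ hη0] at hk
  obtain ⟨K', hK', hb⟩ := iter hMOM hBAR hd hγ hγ0 h htouch ht₁ hT1 hFb' hθa hη0
    (by rw [hη]; ring) k a le_rfl (by linarith) C0 hC00 hρ' N₀
  obtain ⟨K2, hK2, hb2⟩ := h.decayφ ht₁ N₀
  refine ⟨max K' K2, le_max_of_le_left hK', fun t ht x v => ?_⟩
  rcases le_total t t₁ with g | g
  · exact (hb2 t ⟨ht.1, g⟩ x v).trans (mul_le_mul_of_nonneg_right (le_max_right _ _) (φ_pos _ v).le)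
  · exact (hb t ⟨g, ht.2⟩ x v).trans (mul_le_mul_of_nonneg_right (le_max_left _ _) (φ_pos _ v).le)

end Pool.Agent.H43.KS
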