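import Pool.Agent.H821.BZ.Bar2
import Pool.Agent.H821.BZ.Sol2
import Pool.Agent.H43.BZ.Stm3

/-!
# Interface: soft potentials, mass and supremum only

`V d = EuclideanSpace ℝ (Fin d)` (namespace H821.BZ; the same type as `E d` of H43.BZ);
`φs n μ v = ((1 + ‖v‖²/μ²)^n)⁻¹` (lemma `φs_eq`);
`momS γ γ 2 μ f v = ∫⁻ w, ofReal (f w * (μ^γ * ((‖w - v‖/μ)^γ + (1 + ‖w‖/μ)^2)))`, and
`μ^γ (‖w - v‖/μ)^γ = ‖w - v‖^γ`.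
-/

set_option autoImplicit false

open MeasureTheory Metric Set Filter Topology
open scoped RealInnerProductSpace ENNReal

namespace Pool.Agent.H43.KS

open Pool.Agent.H821.BZ

/-- **SOFTI** (interpolation; Mathlib only): for `δ > 0`, the part `‖w - v‖ < δ` is
`≤ F ∫_{‖z‖<δ} ‖z‖^γ dz = F c δ^(d+γ)`, `c = ∫_{‖z‖<1} ‖z‖^γ < ∞` as `-d < γ` (see the proof of
`Pool.Agent.H821.BZ.mom_le` or `Pool.Agent.H71.BZ.SOFT1`), the part `‖w - v‖ ≥ δ` is `≤ δ^γ r`.  Take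
`δ = (r/F)^(1/d)`: both are `C r^(1+γ/d) F^(-γ/d)`. -/
def S_SOFTI : Prop := ∀ d : ℕ, 2 ≤ d → ∀ γ : ℝ, -(d : ℝ) < γ → γ < 0 → ∃ C : ℝ, 0 ≤ C ∧
    ∀ f : V d → ℝ, Measurable f → (∀ w, 0 ≤ f w) → Integrable f → ∀ r F : ℝ, 0 < r → 0 < F →
    ∫ w, f w ≤ r → (∀ w, f w ≤ F) → ∀ v : V d,
    ∫⁻ w : V d, ENNReal.ofReal (f w * ‖w - v‖ ^ γ) ≤
      ENNReal.ofReal (C * (r ^ (1 + γ / d) * F ^ (-γ / d)))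

/-- **MOMT** (`theorem MOMT (h : S_SOFTI) : S_MOMT`).  `momS γ γ 2 μ f v =
∫⁻ f ‖w-v‖^γ + ∫⁻ f μ^γ (1+‖w‖/μ)²`; the first by SOFTI.  Second: where `‖w‖ ≤ R μ`,
`(1+‖w‖/μ)² ≤ 4R²` (`R ≥ 1`): `≤ 4R² f`; where `‖w‖ > R μ`: `(1+‖w‖/μ)² ≤ 2(1+‖w‖²/μ²)` and
`f ≤ K φs (n+1+N') μ`, `φs (n+1+N') μ w (1+‖w‖²/μ²) = φs n μ w φs N' μ w ≤ φs n μ w (R^(2N'))⁻¹`.
`∫ φs n μ = μ^d ∫ φ n` (scaling, `lint_scale` in Pool.Agent.H821.BZ.Scale, or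
`Measure.integral_comp_smul`), `φ n` is integrable as `d < 2n` (`integrable_φ`).
(Compare `Pool.Agent.H821.BZ.tail` in Main3.lean.) -/
def S_MOMT : Prop := ∀ d : ℕ, 2 ≤ d → ∀ γ : ℝ, -(d : ℝ) < γ → γ < 0 → ∀ n : ℕ, (d : ℝ) < 2 * n →
    ∃ C : ℝ, 0 ≤ C ∧ ∀ N' : ℕ,
    ∀ f : V d → ℝ, Measurable f → (∀ w, 0 ≤ f w) → Integrable f → ∀ r F : ℝ, 0 < r → 0 < F →
    ∫ w, f w ≤ r → (∀ w, f w ≤ F) → ∀ K μ R : ℝ, 0 ≤ K → 0 < μ → 1 ≤ R →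
    (∀ w, f w ≤ K * φs (n + 1 + N') μ w) → ∀ v : V d,
    momS γ γ 2 μ f v ≤ ENNReal.ofReal (C * (r ^ (1 + γ / d) * F ^ (-γ / d)) +
      C * (μ ^ γ * (R ^ 2 * r + K * μ ^ d * (R ^ (2 * N'))⁻¹)))

/-- **BARR** (`barrierG` of Pool.Agent.H821.BZ.Bar2 with `B t v = M t * φs N (μ t) v`; the proof is
a simplification of the proof of `growthS` in Pool.Agent.H821.BZ.Grow2).  For `hbar`: with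
`D = fderiv ... < M' t₀ φs` take `κ = (D + M' t₀ φs)/2`; `M t₀ - M t ≥ (κ/φs) (t₀ - t)` for `t` near
`t₀` from the left (`HasDerivAt` gives the slope), `φs N (μ t) v ≤ φs N (μ t₀) v` as `μ` is monotone
(`φs_mono`) and `M t > 0`. -/
def S_BARR : Prop := ∀ (d : ℕ) (T t₁ : ℝ) (f : ℝ → V d → V d → ℝ) (N : ℕ) (M M' μ : ℝ → ℝ),
    (∀ t ∈ Ico 0 T, ∀ (n : Fin d → ℤ) (x v : V d), f t (x + zv n) v = f t x v) →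
    ContinuousOn (fun p : ℝ × V d × V d => f p.1 p.2.1 p.2.2) (Ico 0 T ×ˢ univ) →
    (∀ t₂ ∈ Ico 0 T, ∀ q : ℕ, ∃ C, ∀ t ∈ Icc 0 t₂, ∀ x v : V d, f t x v ≤ C * ((1 + ‖v‖) ^ q)⁻¹) →
    (∀ t ∈ Ioo 0 T, ∀ x v : V d, DifferentiableAt ℝ (fun p : ℝ × V d => f p.1 p.2 v) (t, x)) →
    t₁ ∈ Ico 0 T → ContinuousOn μ (Ico t₁ T) → MonotoneOn μ (Ico t₁ T) →
    (∀ t ∈ Ico t₁ T, 1 ≤ μ t) → ContinuousOn M (Ico t₁ T) → MonotoneOn M (Ico t₁ T) → 0 < M t₁ →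
    (∀ t ∈ Ioo t₁ T, HasDerivAt M (M' t) t) →
    (∀ x v, f t₁ x v < M t₁ * φs N (μ t₁) v) →
    (∀ t ∈ Ioo t₁ T, ∀ x v, (∀ w, f t x w ≤ M t * φs N (μ t) w) → f t x v = M t * φs N (μ t) v →
      fderiv ℝ (fun p : ℝ × V d => f p.1 p.2 v) (t, x) (1, v) < M' t * φs N (μ t) v) →
    ∀ t ∈ Ico t₁ T, ∀ x v, f t x v < M t * φs N (μ t) v

/-- **LHS** (calculus, as `Pool.Agent.H872.BZ.LP` = `S_LP`, now for the weight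
`h(y) = m ((1+‖y‖²/μ²)^n)⁻¹`): `D²h(v)(e,e) = h(v) (-2n‖e‖²/D + 4n(n+1) ⟪v,e⟫²/D²)`, `D = μ²+‖v‖²`,
so `aHess γ h v z = h(v) ‖z‖^γ (-2n(d-1)‖z‖²/D + 4n(n+1)(‖z‖²‖v‖² - ⟪v,z⟫²)/D²)`
`≤ h(v) ‖z‖^γ 4n(n+1) ‖z‖²‖v‖²/D²` as `m ≥ 0`. -/
def S_LHS : Prop := ∀ d : ℕ, 2 ≤ d → ∀ (γ m μ : ℝ) (n : ℕ), 0 ≤ m → 0 < μ →
    ContDiff ℝ 2 (fun y : V d => m * φs n μ y) ∧
    ∀ v z : V d, Pool.Agent.H43.BZ.aHess γ (fun y => m * φs n μ y) v z ≤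
      m * φs n μ v * (‖z‖ ^ γ * (4 * n * (n + 1) * (‖z‖ ^ 2 * ‖v‖ ^ 2 / (μ ^ 2 + ‖v‖ ^ 2) ^ 2)))

/-- **LTOUCH** (`theorem LTOUCH (h1 : S_LND) (h2 : S_LHES) (h3 : S_LHS) : S_LTOUCH`, imitate
`Pool.Agent.H328.BZ.LQLE`): by LND, LHES (`h = m φs n μ`) and LHS, with `z = v - w`,
`QL γ g v ≤ g v ∫ g(w) [4n(n+1) ‖z‖^(γ+2) ‖v‖²/D² + (d-1)(d+γ) ‖z‖^γ]`, `D = μ²+‖v‖²`.
Pointwise: if `‖w‖ ≤ 2‖v‖`: `‖z‖² ≤ 9‖v‖²`, so the first term is `≤ 36 n(n+1) ‖z‖^γ`;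
if `‖w‖ > 2‖v‖`: `‖z‖^(γ+2) ≤ (3‖w‖/2)^(γ+2)`, `‖v‖²/D² ≤ 1/μ²`, and
`(3‖w‖/2)^(γ+2)/μ² ≤ 4 μ^γ (‖w‖/μ)^(γ+2) ≤ 4 μ^γ (1+‖w‖/μ)²` as `0 < γ+2 < 2`.  Hence `QL ≤ C g(v) ∫ g(w)
μ^γ ((‖w-v‖/μ)^γ + (1+‖w‖/μ)²)`; the last integral converges (decay of `g`, `γ > -2 ≥ -d`; finiteness:
`momB_all`/`momS_le` in Pool.Agent.H821.BZ.Sol2, as in the proof of `touchS` there) and equals
`(momS γ γ 2 μ g v).toReal` (`integral_eq_lintegral_of_nonneg_ae`). -/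
def S_LTOUCH : Prop := ∀ d : ℕ, 2 ≤ d → ∀ n : ℕ, (d : ℝ) + 6 ≤ 2 * n → ∃ C : ℝ, 0 ≤ C ∧
    ∀ γ : ℝ, -2 < γ → γ < 0 → ∀ g : V d → ℝ, Pool.Agent.H43.BZ.Rap g → (∀ y, 0 ≤ g y) →
    ∀ m μ : ℝ, 1 ≤ μ → (∀ y, g y ≤ m * φs n μ y) → ∀ v : V d, g v = m * φs n μ v →
    Pool.Agent.H43.BZ.QL γ g v ≤ C * g v * (momS γ γ 2 μ g v).toReal

end Pool.Agent.H43.KS
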